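import Pool.Agent.Lib.H63K.Mass

/-! Chunk ALG: section 4 of PROOF.md, the cost of the algorithm. -/

namespace H63K

variable {M : Type*} [MetricSpace M] {k : ℕ} {κ ε : ℝ} {P0 : Fin k → M}

namespace Run

theorem stable [NeZero k] (R : Run M k κ ε P0) (n : ℕ) (X : Fin k → M) :
    R.m n (R.S n) ≤ R.m n X + 1 / 2 * move (R.S n) X := by
  rcases n with _ | n
  · rw [R.zero_S, R.zero_m]
    have h1 := (R.good 0).nonneg X
    have h2 := move_nonneg P0 X
    linarith
  · have h1 := R.S_succ n X
    have h2 := move_triangle (R.S n) (R.S (n + 1)) X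
    linarith

theorem service_le [NeZero k] (R : Run M k κ ε P0) (n : ℕ) :
    dmin (R.S n) (R.σ n) ≤ 2 * R.lam n := by
  rw [R.lam_eq n]
  exact dmin_le_delta (R.good n) (R.S n) (R.stable n) (R.σ n)

theorem ALG_hards_succ_of_hard (R : Run M k κ ε P0) {n : ℕ} (h : R.hard n) :
    R.hards (n + 1) = insert n (R.hards n) := by
  classical
  unfold hards
  rw [Finset.range_add_one, Finset.filter_insert, if_pos h]

theorem ALG_hards_succ_of_not (R : Run M k κ ε P0) {n : ℕ} (h : ¬ R.hard n) :
    R.hards (n + 1) = R.hards n := by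
  classical
  unfold hards
  rw [Finset.range_add_one, Finset.filter_insert, if_neg h]

theorem ALG_not_mem (R : Run M k κ ε P0) (n : ℕ) : n ∉ R.hards n := by
  classical
  unfold hards
  rw [Finset.mem_filter, Finset.mem_range]
  exact fun h => lt_irrefl _ h.1

/-- induction: `m n (S n) + 1/2 ∑ move ≤ ∑_{τ ∈ hards n} lam τ` -/
theorem move_le [NeZero k] (R : Run M k κ ε P0) (n : ℕ) :
    R.m n (R.S n) + 1 / 2 * ∑ t ∈ Finset.range n, move (R.S t) (R.S (t + 1)) ≤
      ∑ τ ∈ R.hards n, R.lam τ := by
  induction n with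
  | zero =>
    have h0 : R.hards 0 = ∅ := by
      classical
      unfold hards
      simp
    rw [R.zero_S, R.zero_m, h0]
    simp
  | succ n ih =>
    rw [Finset.sum_range_succ]
    have h1 := R.S_succ n (R.S n)
    rw [move_self] at h1
    by_cases h : R.hard n
    · rw [ALG_hards_succ_of_hard R h, Finset.sum_insert (ALG_not_mem R n)]
      have h2 : R.m (n + 1) (R.S n) ≤ R.m n (R.S n) + R.lam n := by
        rw [R.m_succ_of_hard h, R.lam_eq n]
        exact T_le_delta (R.good n) (R.σ n) (R.S n)
      linarith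
    · rw [ALG_hards_succ_of_not R h]
      have h2 : R.m (n + 1) (R.S n) = R.m n (R.S n) := by
        rw [R.m_succ_of_not_hard h]
      linarith

theorem alg_cost [NeZero k] (hκ : 8 ≤ κ) (hε : 0 < ε) (R : Run M k κ ε P0) (n : ℕ) :
    R.cost R.S n ≤ 8 * R.V n := by
  have h1 := R.move_le n
  have h2 := R.sum_hard_lam hκ hε n
  have h3 := (R.good n).nonneg (R.S n)
  have h4 : ∑ t ∈ Finset.range n, ε * dmin (R.S t) (R.σ t) ≤ 2 * R.V n := by
    unfold V
    rw [Finset.mul_sum]
    apply Finset.sum_le_sum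
    intro t _
    have := mul_le_mul_of_nonneg_left (R.service_le t) hε.le
    linarith
  unfold cost
  rw [Finset.sum_add_distrib]
  linarith

end Run

end H63K
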