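import Pool.Agent.Lib.H63K.QC

/-! Chunk BASE: the initial function is good; finite support; existence of the minimizer. -/

namespace H63K

variable {M : Type*} [MetricSpace M] {k : ℕ} {P0 : Fin k → M} {m : (Fin k → M) → ℝ}

/-- the infimum over permutations is attained -/
theorem exists_m0 (P0 X : Fin k → M) : ∃ π : Equiv.Perm (Fin k), m0 P0 X = move P0 (X ∘ π) := by
  obtain ⟨π, hπ⟩ := exists_eq_ciInf_of_finite
    (f := fun π : Equiv.Perm (Fin k) => move P0 (X ∘ π))
  exact ⟨π, hπ.symm⟩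

theorem m0_le (P0 X : Fin k → M) (π : Equiv.Perm (Fin k)) : m0 P0 X ≤ move P0 (X ∘ π) := by
  exact ciInf_le (Set.finite_range (fun π : Equiv.Perm (Fin k) => move P0 (X ∘ π))).bddBelow π

theorem m0_self (P0 : Fin k → M) : m0 P0 P0 = 0 := by
  apply le_antisymm
  · have h := m0_le P0 P0 1
    have h1 : P0 ∘ (1 : Equiv.Perm (Fin k)) = P0 := rfl
    rw [h1, move_self] at h
    exact h
  · obtain ⟨π, hπ⟩ := exists_m0 P0 P0
    rw [hπ]
    exact move_nonneg _ _

/-- For `qc`: `m0 A = move P0 (A ∘ σ)`, `m0 B = move P0 (B ∘ τ)`; take `π = τ * σ⁻¹`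
(so `π (σ i) = τ i`); both mixtures composed with `σ` are mixtures of `A ∘ σ` and `B ∘ τ`,
and the sum over `i` of the two distances is the same. For `lb`: `d(u, X_{σ i}) ≤ d(u, P0_i) +
d(P0_i, X_{σ i})`. -/
theorem good_m0 (P0 : Fin k → M) : Good P0 (m0 P0) := by
  have hs : ∀ (π : Equiv.Perm (Fin k)) (X : Fin k → M), m0 P0 (X ∘ π) ≤ m0 P0 X := by
    intro π X
    obtain ⟨σ, hσ⟩ := exists_m0 P0 X
    rw [hσ]
    have h := m0_le P0 (X ∘ π) (π⁻¹ * σ)
    have h1 : (X ∘ π) ∘ (π⁻¹ * σ : Equiv.Perm (Fin k)) = X ∘ σ := by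
      funext i
      simp
    rw [h1] at h
    exact h
  refine ⟨?_, ?_, ?_, ?_, ?_⟩
  · intro π X
    apply le_antisymm (hs π X)
    have h := hs π⁻¹ (X ∘ π)
    have h1 : (X ∘ π) ∘ (π⁻¹ : Equiv.Perm (Fin k)) = X := by
      funext i
      simp
    rw [h1] at h
    exact h
  · intro X Y
    obtain ⟨σ, hσ⟩ := exists_m0 P0 Y
    have h := m0_le P0 X σ
    have h1 := move_triangle P0 (Y ∘ σ) (X ∘ σ)
    rw [move_comp_perm, move_comm Y X] at h1
    linarith
  · intro A B
    obtain ⟨σ, hσ⟩ := exists_m0 P0 A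
    obtain ⟨τ, hτ⟩ := exists_m0 P0 B
    refine ⟨τ * σ⁻¹, fun I => ?_⟩
    have h1 := m0_le P0 (fun i => if i ∈ I then B ((τ * σ⁻¹ : Equiv.Perm (Fin k)) i) else A i) σ
    have h2 := m0_le P0 (fun i => if i ∈ I then A i else B ((τ * σ⁻¹ : Equiv.Perm (Fin k)) i)) σ
    have h3 : move P0 ((fun i => if i ∈ I then B ((τ * σ⁻¹ : Equiv.Perm (Fin k)) i) else A i) ∘ σ) +
        move P0 ((fun i => if i ∈ I then A i else B ((τ * σ⁻¹ : Equiv.Perm (Fin k)) i)) ∘ σ) =
        move P0 (A ∘ σ) + move P0 (B ∘ τ) := by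
      unfold move
      rw [← Finset.sum_add_distrib, ← Finset.sum_add_distrib]
      refine Finset.sum_congr rfl fun i _ => ?_
      by_cases h : σ i ∈ I
      · simp [h, add_comm]
      · simp [h]
    rw [hσ, hτ]
    linarith
  · intro X u
    obtain ⟨σ, hσ⟩ := exists_m0 P0 X
    rw [hσ, ← Equiv.sum_comp σ (fun j => dist u (X j))]
    unfold move
    rw [← Finset.sum_add_distrib]
    refine Finset.sum_le_sum fun i _ => ?_
    have h := dist_triangle u (P0 i) (X (σ i))
    simp only [Function.comp_apply]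
    linarith
  · intro X
    obtain ⟨σ, hσ⟩ := exists_m0 P0 X
    rw [hσ]
    exact move_nonneg _ _

/-- `Y = P0 ∘ π⁻¹` for the minimizing `π`. -/
theorem supp_m0 (P0 : Fin k → M) : ∃ F : Finset M, Supp (k := k) F (m0 P0) := by
  classical
  refine ⟨Finset.univ.image P0, fun X => ?_⟩
  obtain ⟨σ, hσ⟩ := exists_m0 P0 X
  refine ⟨P0 ∘ (σ⁻¹ : Equiv.Perm (Fin k)), fun j => Finset.mem_image_of_mem _ (Finset.mem_univ _),
    ?_⟩
  have h := m0_le P0 (P0 ∘ (σ⁻¹ : Equiv.Perm (Fin k))) σ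
  have h1 : (P0 ∘ (σ⁻¹ : Equiv.Perm (Fin k))) ∘ σ = P0 := by
    funext i
    simp
  rw [h1, move_self] at h
  have h2 := move_comp_perm σ (P0 ∘ (σ⁻¹ : Equiv.Perm (Fin k))) X
  rw [h1] at h2
  rw [hσ, h2]
  linarith

/-- Proof: `F ∪ {r}`. Let `T r m X = m Z + d(X_i, r)`, `Z = X[i ↦ r]`, `m Y + move Y Z ≤ m Z` with
`Y` in `F`. Put `Y' = Y[i ↦ r]`: `T r m Y' ≤ m Y'` (`T_le` at `i`, `update_idem`)
`≤ m Y + d(Y_i, r)`, and `move Y' X = ∑_{j ≠ i} d(Y_j, X_j) + d(r, X_i)`,
`move Y Z = ∑_{j ≠ i} d(Y_j, X_j) + d(Y_i, r)`. -/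
theorem supp_T [NeZero k] (hm : Good P0 m) (h : ∃ F : Finset M, Supp F m) (r : M) :
    ∃ F : Finset M, Supp F (T r m) := by
  classical
  obtain ⟨F, hF⟩ := h
  refine ⟨insert r F, fun X => ?_⟩
  obtain ⟨i, hi⟩ := exists_T r m X
  obtain ⟨Y, hY, hYm⟩ := hF (Function.update X i r)
  refine ⟨Function.update Y i r, ?_, ?_⟩
  · intro j
    by_cases h : j = i
    · subst h
      simp
    · rw [Function.update_of_ne h]
      exact Finset.mem_insert_of_mem (hY j)
  · have h1 := T_le r m (Function.update Y i r) i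
    rw [Function.update_idem, Function.update_self, dist_self, add_zero] at h1
    have h2 := hm.lip (Function.update Y i r) Y
    rw [move_comm, move_update] at h2
    have h3 : move (Function.update Y i r) X + dist (Y i) r =
        move Y (Function.update X i r) + dist (X i) r := by
      unfold move
      rw [← Finset.add_sum_erase _ _ (Finset.mem_univ i),
        ← Finset.add_sum_erase _ _ (Finset.mem_univ i), Function.update_self, Function.update_self]
      have h4 : ∑ j ∈ Finset.univ.erase i, dist (Function.update Y i r j) (X j) =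
          ∑ j ∈ Finset.univ.erase i, dist (Y j) (Function.update X i r j) := by
        refine Finset.sum_congr rfl fun j hj => ?_
        rw [Function.update_of_ne (Finset.ne_of_mem_erase hj),
          Function.update_of_ne (Finset.ne_of_mem_erase hj)]
      rw [h4, dist_comm r (X i)]
      ring
    rw [hi]
    linarith

/-- Proof: the minimum of `m Y + move S Y / 2` over the finite set of `Y` supported in `F`
(`Fintype.piFinset (fun _ => F)`, nonempty by `Supp` at `S`) is the minimum over all `X`: with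
`m Y + move Y X ≤ m X`, `m Y + move S Y / 2 ≤ m X - move Y X + (move S X + move X Y) / 2`. -/
theorem exists_argmin (h : ∃ F : Finset M, Supp F m) (S : Fin k → M) :
    ∃ S' : Fin k → M, ∀ X, m S' + 1 / 2 * move S S' ≤ m X + 1 / 2 * move S X := by
  classical
  obtain ⟨F, hF⟩ := h
  obtain ⟨Y0, hY0, -⟩ := hF S
  obtain ⟨S', hS', hmin⟩ := Finset.exists_min_image (Fintype.piFinset (fun _ : Fin k => F))
    (fun X => m X + 1 / 2 * move S X) ⟨Y0, Fintype.mem_piFinset.2 hY0⟩
  refine ⟨S', fun X => ?_⟩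
  obtain ⟨Y, hY, hYm⟩ := hF X
  have h1 := hmin Y (Fintype.mem_piFinset.2 hY)
  have h2 := move_triangle S X Y
  have h3 := move_nonneg Y X
  rw [move_comm X Y] at h2
  linarith

end H63K
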