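import Pool.Agent.Lib.H63K.Defs

/-! Chunk BAS: elementary facts on `move`, `dmin`, `T`. -/

namespace H63K

variable {M : Type*} [MetricSpace M] {k : ℕ}

theorem move_nonneg (X Y : Fin k → M) : 0 ≤ move X Y :=
  Finset.sum_nonneg fun _ _ => dist_nonneg

theorem move_self (X : Fin k → M) : move X X = 0 := by
  simp [move]

theorem move_comm (X Y : Fin k → M) : move X Y = move Y X := by
  unfold move
  exact Finset.sum_congr rfl fun i _ => dist_comm _ _

theorem move_triangle (X Y Z : Fin k → M) : move X Z ≤ move X Y + move Y Z := by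
  unfold move
  rw [← Finset.sum_add_distrib]
  exact Finset.sum_le_sum fun i _ => dist_triangle _ _ _

theorem move_comp_perm (π : Equiv.Perm (Fin k)) (X Y : Fin k → M) :
    move (X ∘ π) (Y ∘ π) = move X Y := by
  unfold move
  exact Equiv.sum_comp π (fun i => dist (X i) (Y i))

theorem move_update (X : Fin k → M) (i : Fin k) (r : M) :
    move X (Function.update X i r) = dist (X i) r := by
  unfold move
  rw [Finset.sum_eq_single i]
  · simp
  · intro b _ hb
    rw [Function.update_of_ne hb, dist_self]
  · intro h
    exact absurd (Finset.mem_univ i) h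

theorem bas_bdd {α : Type*} [Finite α] (f : α → ℝ) : BddBelow (Set.range f) :=
  (Set.finite_range f).bddBelow

theorem dmin_le (X : Fin k → M) (r : M) (i : Fin k) : dmin X r ≤ dist (X i) r :=
  ciInf_le (bas_bdd (fun i => dist (X i) r)) i

theorem exists_dmin [NeZero k] (X : Fin k → M) (r : M) : ∃ i, dist (X i) r = dmin X r := by
  obtain ⟨i, hi⟩ := exists_eq_ciInf_of_finite (f := fun i => dist (X i) r)
  exact ⟨i, hi⟩

theorem dmin_nonneg (X : Fin k → M) (r : M) : 0 ≤ dmin X r :=
  Real.iInf_nonneg fun _ => dist_nonneg

theorem T_le (r : M) (m : (Fin k → M) → ℝ) (X : Fin k → M) (i : Fin k) :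
    T r m X ≤ m (Function.update X i r) + dist (X i) r :=
  ciInf_le (bas_bdd (fun i => m (Function.update X i r) + dist (X i) r)) i

theorem exists_T [NeZero k] (r : M) (m : (Fin k → M) → ℝ) (X : Fin k → M) :
    ∃ i, T r m X = m (Function.update X i r) + dist (X i) r := by
  obtain ⟨i, hi⟩ := exists_eq_ciInf_of_finite
    (f := fun i => m (Function.update X i r) + dist (X i) r)
  exact ⟨i, hi.symm⟩

theorem le_T [NeZero k] {m : (Fin k → M) → ℝ} (hm : ∀ X Y, m X ≤ m Y + move X Y)
    (r : M) (X : Fin k → M) : m X ≤ T r m X := by
  obtain ⟨i, hi⟩ := exists_T r m X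
  rw [hi]
  have h := hm X (Function.update X i r)
  rw [move_update] at h
  exact h

theorem T_le_dmin [NeZero k] {m : (Fin k → M) → ℝ} (hm : ∀ X Y, m X ≤ m Y + move X Y)
    (r : M) (X : Fin k → M) : T r m X ≤ m X + 2 * dmin X r := by
  obtain ⟨i, hi⟩ := exists_dmin X r
  have h1 := T_le r m X i
  have h2 := hm (Function.update X i r) X
  rw [move_comm, move_update] at h2
  linarith

theorem bas_move_update_update (X : Fin k → M) (i : Fin k) (u v : M) :
    move (Function.update X i u) (Function.update X i v) = dist u v := by
  have h := move_update (Function.update X i u) i v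
  rw [Function.update_idem, Function.update_self] at h
  exact h

/-- the point of the request may be changed: update at `v` instead of `u` -/
theorem T_dist [NeZero k] {m : (Fin k → M) → ℝ} (hm : ∀ X Y, m X ≤ m Y + move X Y)
    (u v : M) (X : Fin k → M) : T u m X ≤ T v m X + 2 * dist u v := by
  obtain ⟨i, hi⟩ := exists_T v m X
  have h1 := T_le u m X i
  have h2 := hm (Function.update X i u) (Function.update X i v)
  rw [bas_move_update_update] at h2
  have h3 := dist_triangle (X i) v u
  rw [dist_comm v u] at h3
  linarith

theorem T_lip [NeZero k] {m : (Fin k → M) → ℝ} (hm : ∀ X Y, m X ≤ m Y + move X Y)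
    (r : M) (X Y : Fin k → M) : T r m X ≤ T r m Y + move X Y := by
  obtain ⟨i, hi⟩ := exists_T r m Y
  have h1 := T_le r m X i
  have h2 := hm (Function.update X i r) (Function.update Y i r)
  have h3 : move (Function.update X i r) (Function.update Y i r) + dist (X i) (Y i)
      = move X Y := by
    unfold move
    rw [← Finset.sum_erase_add _ _ (Finset.mem_univ i),
      ← Finset.sum_erase_add Finset.univ (fun j => dist (X j) (Y j)) (Finset.mem_univ i)]
    have h4 : ∀ j ∈ Finset.univ.erase i,
        dist (Function.update X i r j) (Function.update Y i r j) = dist (X j) (Y j) := by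
      intro j hj
      rw [Function.update_of_ne (Finset.ne_of_mem_erase hj),
        Function.update_of_ne (Finset.ne_of_mem_erase hj)]
    rw [Finset.sum_congr rfl h4, Function.update_self, Function.update_self, dist_self]
    ring
  have h5 := dist_triangle (X i) (Y i) r
  linarith

/-- `(X ∘ π)` with page `i` moved to `r` is `X` with page `π i` moved to `r`, composed with `π` -/
theorem update_comp_perm (π : Equiv.Perm (Fin k)) (X : Fin k → M) (i : Fin k) (r : M) :
    Function.update (X ∘ π) i r = (Function.update X (π i) r) ∘ π := by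
  funext j
  by_cases hj : j = i
  · subst hj
    simp
  · rw [Function.update_of_ne hj]
    simp only [Function.comp_apply]
    rw [Function.update_of_ne (fun h => hj (π.injective h))]

theorem T_symm {m : (Fin k → M) → ℝ} (hm : ∀ (π : Equiv.Perm (Fin k)) (X : Fin k → M),
    m (X ∘ π) = m X) (r : M) (π : Equiv.Perm (Fin k)) (X : Fin k → M) :
    T r m (X ∘ π) = T r m X := by
  unfold T
  have h : (fun i => m (Function.update (X ∘ π) i r) + dist ((X ∘ π) i) r)
      = (fun i => (fun j => m (Function.update X j r) + dist (X j) r) (π i)) := by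
    funext i
    rw [update_comp_perm, hm]
    rfl
  rw [h]
  exact Equiv.iInf_comp (g := fun j => m (Function.update X j r) + dist (X j) r) π

/-- for the minimizing page `i`: `T r (T r m) X ≤ T r m (X[i ↦ r]) + d(X_i, r)` and
`T r m (X[i ↦ r]) ≤ m (X[i ↦ r]) + 0` -/
theorem T_T [NeZero k] (r : M) (m : (Fin k → M) → ℝ) (X : Fin k → M) :
    T r (T r m) X ≤ T r m X := by
  obtain ⟨i, hi⟩ := exists_T r m X
  have h1 := T_le r (T r m) X i
  have h2 := T_le r m (Function.update X i r) i
  rw [Function.update_idem, Function.update_self, dist_self] at h2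
  linarith

end H63K
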