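import Pool.Agent.Lib.H63K.Basic

/-! Chunk CRO: the crossing lemma (case B of section 6 of PROOF.md). No algorithm here:
only moving pages and balls. -/

namespace H63K

variable {M : Type*} [MetricSpace M] {k : ℕ}

/-- one page: telescoping sum of the truncated distance from `p` -/
theorem cross_single (x : ℕ → M) (p : M) (r : ℝ) {t τ : ℕ} (h : t ≤ τ)
    (h1 : dist (x t) p ≤ r / 2) (h2 : r ≤ dist (x τ) p) :
    r / 2 ≤ ∑ s ∈ Finset.Ico t τ, |min (dist (x (s + 1)) p) r - min (dist (x s) p) r| := by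
  have e := Finset.sum_Ico_sub (fun s => min (dist (x s) p) r) h
  have a : min (dist (x τ) p) r = r := min_eq_right h2
  have b : min (dist (x t) p) r ≤ r / 2 := (min_le_left _ _).trans h1
  have c : ∑ s ∈ Finset.Ico t τ, (min (dist (x (s + 1)) p) r - min (dist (x s) p) r) ≤
      ∑ s ∈ Finset.Ico t τ, |min (dist (x (s + 1)) p) r - min (dist (x s) p) r| :=
    Finset.sum_le_sum fun s _ => le_abs_self _
  have e' : ∑ s ∈ Finset.Ico t τ, (min (dist (x (s + 1)) p) r - min (dist (x s) p) r) =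
      min (dist (x τ) p) r - min (dist (x t) p) r := e
  rw [a] at e'
  linarith

/-- the truncated distance is 1-Lipschitz, and constant away from the ball -/
theorem cross_term (x y p : M) (r : ℝ) :
    |min (dist y p) r - min (dist x p) r| ≤
      dist x y * ((if dist x p < r then 1 else 0) + (if dist y p < r then 1 else 0)) := by
  have hl : |min (dist y p) r - min (dist x p) r| ≤ dist x y := by
    have h1 := abs_min_sub_min_le_max (dist y p) r (dist x p) r
    have h2 : |dist y p - dist x p| ≤ dist y x := abs_dist_sub_le y x p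
    rw [dist_comm y x] at h2
    refine h1.trans ?_
    rw [sub_self, abs_zero]
    exact max_le h2 dist_nonneg
  have hd : 0 ≤ dist x y := dist_nonneg
  by_cases hx : dist x p < r
  · by_cases hy : dist y p < r
    · rw [if_pos hx, if_pos hy]
      nlinarith
    · rw [if_pos hx, if_neg hy]
      linarith
  · by_cases hy : dist y p < r
    · rw [if_neg hx, if_pos hy]
      linarith
    · rw [if_neg hx, if_neg hy, min_eq_right (not_lt.1 hx), min_eq_right (not_lt.1 hy)]
      simp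

/-- at most one ball contains the point -/
theorem CRO_count (S : Finset ℕ) (a : M) (c : ℕ → ℝ) (p : ℕ → M)
    (h : ∀ τ1 ∈ S, ∀ τ2 ∈ S, τ1 < τ2 → c τ1 / 48 + c τ2 / 48 ≤ dist (p τ1) (p τ2)) :
    ∑ τ ∈ S, (if dist a (p τ) < c τ / 48 then (1 : ℝ) else 0) ≤ 1 := by
  classical
  rw [Finset.sum_boole]
  have : (S.filter (fun τ => dist a (p τ) < c τ / 48)).card ≤ 1 := by
    rw [Finset.card_le_one]
    intro x hx y hy
    rw [Finset.mem_filter] at hx hy
    by_contra hne
    rcases lt_or_gt_of_ne hne with hl | hl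
    · have h0 := h x hx.1 y hy.1 hl
      have h1 := dist_triangle_left (p x) (p y) a
      linarith [hx.2, hy.2]
    · have h0 := h y hy.1 x hx.1 hl
      have h1 := dist_triangle_left (p y) (p x) a
      linarith [hx.2, hy.2]
  exact_mod_cast this

/-- Proof: `c τ / 96 ≤ ∑_{s ∈ [t τ, τ)} |φ_τ(X (s+1) (i τ)) - φ_τ(X s (i τ))|` (`cross_single` with
`r = c τ / 48`). Exchange the sums: for fixed `s < n` and page `i` the sum over the
`τ ∈ B` with `i τ = i`, `t τ ≤ s < τ` of the terms is, by `cross_term`, at most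
`dist (X s i) (X (s+1) i) * (#{τ : dist (X s i) (p τ) < c τ / 48} + #{τ : dist (X (s+1) i) (p τ) <
c τ / 48})`, and both cardinalities are at most 1 by `h3` (if `τ1 < τ2` are two of them,
`t τ2 ≤ s < τ1`, and the triangle inequality contradicts `h3`). -/
theorem crossing (n : ℕ) (B : Finset ℕ) (X : ℕ → (Fin k → M)) (c : ℕ → ℝ) (p : ℕ → M)
    (t : ℕ → ℕ) (i : ℕ → Fin k)
    (hB : ∀ τ ∈ B, t τ < τ ∧ τ ≤ n)
    (h1 : ∀ τ ∈ B, dist (X (t τ) (i τ)) (p τ) ≤ c τ / 96)
    (h2 : ∀ τ ∈ B, c τ / 48 ≤ dist (X τ (i τ)) (p τ))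
    (h3 : ∀ τ1 ∈ B, ∀ τ2 ∈ B, τ1 < τ2 → t τ2 < τ1 → c τ1 / 48 + c τ2 / 48 ≤ dist (p τ1) (p τ2)) :
    ∑ τ ∈ B, c τ ≤ 192 * ∑ s ∈ Finset.range n, move (X s) (X (s + 1)) := by
  classical
  -- the term of `τ` at time `s`
  set w : ℕ → ℕ → ℝ := fun τ s =>
    |min (dist (X (s + 1) (i τ)) (p τ)) (c τ / 48) - min (dist (X s (i τ)) (p τ)) (c τ / 48)| with hw
  have hw0 : ∀ τ s, 0 ≤ w τ s := fun τ s => abs_nonneg _
  have s1 : ∀ τ ∈ B, c τ / 96 ≤ ∑ s ∈ Finset.Ico (t τ) τ, w τ s := by
    intro τ hτ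
    have := cross_single (fun s => X s (i τ)) (p τ) (c τ / 48) (hB τ hτ).1.le
      (by have := h1 τ hτ; linarith) (h2 τ hτ)
    have e : c τ / 48 / 2 = c τ / 96 := by ring
    rw [e] at this
    exact this
  have s2 : ∀ τ ∈ B, ∑ s ∈ Finset.Ico (t τ) τ, w τ s =
      ∑ s ∈ Finset.range n, if (t τ ≤ s ∧ s < τ) then w τ s else 0 := by
    intro τ hτ
    rw [← Finset.sum_filter]
    apply Finset.sum_congr _ fun _ _ => rfl
    ext s
    rw [Finset.mem_Ico, Finset.mem_filter, Finset.mem_range]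
    constructor
    · intro h
      exact ⟨h.2.trans_le (hB τ hτ).2, h⟩
    · intro h
      exact h.2
  have s3 : ∑ τ ∈ B, c τ / 96 ≤
      ∑ s ∈ Finset.range n, ∑ τ ∈ B, if (t τ ≤ s ∧ s < τ) then w τ s else 0 := by
    rw [Finset.sum_comm]
    apply Finset.sum_le_sum
    intro τ hτ
    rw [← s2 τ hτ]
    exact s1 τ hτ
  have s4 : ∀ s ∈ Finset.range n, (∑ τ ∈ B, if (t τ ≤ s ∧ s < τ) then w τ s else 0) ≤
      2 * move (X s) (X (s + 1)) := by
    intro s _
    rw [← Finset.sum_filter]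
    set S := B.filter (fun τ => t τ ≤ s ∧ s < τ) with hS
    have f1 : ∑ τ ∈ S, w τ s = ∑ j : Fin k, ∑ τ ∈ S.filter (fun τ => i τ = j), w τ s := by
      rw [Finset.sum_fiberwise]
    rw [f1]
    unfold move
    rw [Finset.mul_sum]
    apply Finset.sum_le_sum
    intro j _
    set Sj := S.filter (fun τ => i τ = j) with hSj
    have hd : ∀ τ1 ∈ Sj, ∀ τ2 ∈ Sj, τ1 < τ2 → c τ1 / 48 + c τ2 / 48 ≤ dist (p τ1) (p τ2) := by
      intro τ1 m1 τ2 m2 hlt
      rw [hSj, Finset.mem_filter, hS, Finset.mem_filter] at m1 m2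
      exact h3 τ1 m1.1.1 τ2 m2.1.1 hlt (m2.1.2.1.trans_lt m1.1.2.2)
    calc ∑ τ ∈ Sj, w τ s
        ≤ ∑ τ ∈ Sj, dist (X s j) (X (s + 1) j) *
          ((if dist (X s j) (p τ) < c τ / 48 then 1 else 0) +
            (if dist (X (s + 1) j) (p τ) < c τ / 48 then 1 else 0)) := by
          apply Finset.sum_le_sum
          intro τ hτ
          have hi : i τ = j := (Finset.mem_filter.1 hτ).2
          have := cross_term (X s (i τ)) (X (s + 1) (i τ)) (p τ) (c τ / 48)
          rw [hi] at this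
          rw [hw]
          simp only [hi]
          exact this
      _ = dist (X s j) (X (s + 1) j) *
          (∑ τ ∈ Sj, (if dist (X s j) (p τ) < c τ / 48 then (1 : ℝ) else 0) +
            ∑ τ ∈ Sj, (if dist (X (s + 1) j) (p τ) < c τ / 48 then (1 : ℝ) else 0)) := by
          rw [← Finset.mul_sum, Finset.sum_add_distrib]
      _ ≤ dist (X s j) (X (s + 1) j) * (1 + 1) := by
          apply mul_le_mul_of_nonneg_left _ dist_nonneg
          exact add_le_add (CRO_count Sj _ c p hd) (CRO_count Sj _ c p hd)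
      _ = 2 * dist (X s j) (X (s + 1) j) := by ring
  have s5 := s3.trans (Finset.sum_le_sum s4)
  rw [← Finset.mul_sum, ← Finset.sum_div] at s5
  linarith

end H63K
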