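import Mathlib

/-!
# k-page migration (MP_8dbae4_lc): definitions

`M` is a metric space, a configuration is a map `Fin k → M`. All costs inside the
analysis are divided by `D`; `ε = 1 / D`: serving a request costs `ε * dmin`, moving
costs `move`. The proof is in PROOF.md of this folder. `κ` is the constant
`18432 * k`.
-/

namespace H63K

variable {M : Type*} [MetricSpace M] {k : ℕ}

/-- total distance moved, page by page -/
noncomputable def move (X Y : Fin k → M) : ℝ := ∑ i, dist (X i) (Y i)

/-- distance from `r` to the nearest page -/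
noncomputable def dmin (X : Fin k → M) (r : M) : ℝ := ⨅ i, dist (X i) r

/-- the function `m` after a hard request `r` (the update of the `k`-server work function) -/
noncomputable def T (r : M) (m : (Fin k → M) → ℝ) (X : Fin k → M) : ℝ :=
  ⨅ i, (m (Function.update X i r) + dist (X i) r)

/-- the initial function: the matching distance from `P0` -/
noncomputable def m0 (P0 : Fin k → M) (X : Fin k → M) : ℝ :=
  ⨅ π : Equiv.Perm (Fin k), move P0 (X ∘ π)

/-- `m X - ∑ dist u (X j)` -/
noncomputable def gval (m : (Fin k → M) → ℝ) (u : M) (X : Fin k → M) : ℝ :=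
  m X - ∑ j, dist u (X j)

/-- infimum of `gval` over all configurations -/
noncomputable def psi (m : (Fin k → M) → ℝ) (u : M) : ℝ := ⨅ X, gval m u X

/-- infimum of `gval` over all configurations with a page at `u` -/
noncomputable def zeta (m : (Fin k → M) → ℝ) (u : M) : ℝ :=
  ⨅ X : {X : Fin k → M // ∃ j, X j = u}, gval m u X

/-- the deficit at `u` -/
noncomputable def delta (m : (Fin k → M) → ℝ) (u : M) : ℝ := zeta m u - psi m u

/-- the invariant of the functions of the algorithm -/
structure Good (P0 : Fin k → M) (m : (Fin k → M) → ℝ) : Prop where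
  symm : ∀ (π : Equiv.Perm (Fin k)) (X : Fin k → M), m (X ∘ π) = m X
  lip : ∀ X Y : Fin k → M, m X ≤ m Y + move X Y
  qc : ∀ A B : Fin k → M, ∃ π : Equiv.Perm (Fin k), ∀ I : Finset (Fin k),
      m (fun i => if i ∈ I then B (π i) else A i) + m (fun i => if i ∈ I then A i else B (π i))
        ≤ m A + m B
  lb : ∀ (X : Fin k → M) (u : M), ∑ j, dist u (X j) ≤ m X + ∑ j, dist u (P0 j)
  nonneg : ∀ X : Fin k → M, 0 ≤ m X

/-- every configuration is reached from one supported in the finite set `F` -/
def Supp (F : Finset M) (m : (Fin k → M) → ℝ) : Prop :=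
  ∀ X : Fin k → M, ∃ Y : Fin k → M, (∀ j, Y j ∈ F) ∧ m Y + move Y X ≤ m X

/-- request `t` (point `p`, value `a`) is near to request `n` (point `q`, value `b`) -/
def Near (κ : ℝ) (p : M) (a : ℝ) (q : M) (b : ℝ) : Prop :=
  2 * κ * dist p q < a + b ∧ a < 3 * b ∧ b < 3 * a

/-- state of the online algorithm after some requests: `n` requests were seen, `pos t` and
`lam t` are the point and the value of request `t < n`, `P` is the set of pending requests,
`m` the current function, `S` the current configuration -/
structure State (M : Type*) (k : ℕ) where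
  n : ℕ
  m : (Fin k → M) → ℝ
  P : Finset ℕ
  pos : ℕ → M
  lam : ℕ → ℝ
  S : Fin k → M

open Classical in
/-- the algorithm handles one request `r` -/
noncomputable def step (κ ε : ℝ) (st : State M k) (r : M) : State M k :=
  let lam' := Function.update st.lam st.n (delta st.m r)
  let pos' := Function.update st.pos st.n r
  let Q := insert st.n st.P
  let G := Q.filter (fun t => Near κ (pos' t) (lam' t) r (delta st.m r))
  let m' := if 1 ≤ ε * (G.card : ℝ) then T r st.m else st.m
  { n := st.n + 1
    m := m'
    P := Q.filter (fun t => |delta m' (pos' t) - lam' t| < lam' t / 2)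
    pos := pos'
    lam := lam'
    S := if h : ∃ S' : Fin k → M, ∀ X, m' S' + 1 / 2 * move st.S S' ≤ m' X + 1 / 2 * move st.S X
      then h.choose else st.S }

/-- the initial state -/
noncomputable def init (p : M) (P0 : Fin k → M) : State M k :=
  { n := 0, m := m0 P0, P := ∅, pos := fun _ => p, lam := fun _ => 0, S := P0 }

open Classical in
/-- A run of the algorithm on the request sequence `σ`, as used in the analysis. -/
structure Run (M : Type*) [MetricSpace M] (k : ℕ) (κ ε : ℝ) (P0 : Fin k → M) where
  σ : ℕ → M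
  m : ℕ → (Fin k → M) → ℝ
  P : ℕ → Finset ℕ
  lam : ℕ → ℝ
  S : ℕ → (Fin k → M)
  good : ∀ n, Good P0 (m n)
  zero_m : m 0 P0 = 0
  zero_P : P 0 = ∅
  zero_S : S 0 = P0
  lam_eq : ∀ n, lam n = delta (m n) (σ n)
  m_hard : ∀ n, 1 ≤ ε * (((insert n (P n)).filter
      (fun t => Near κ (σ t) (lam t) (σ n) (lam n))).card : ℝ) → m (n + 1) = T (σ n) (m n)
  m_soft : ∀ n, ¬ 1 ≤ ε * (((insert n (P n)).filter
      (fun t => Near κ (σ t) (lam t) (σ n) (lam n))).card : ℝ) → m (n + 1) = m n
  P_succ : ∀ n, P (n + 1) =
      (insert n (P n)).filter (fun t => |delta (m (n + 1)) (σ t) - lam t| < lam t / 2)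
  S_succ : ∀ n X, m (n + 1) (S (n + 1)) + 1 / 2 * move (S n) (S (n + 1))
      ≤ m (n + 1) X + 1 / 2 * move (S n) X

namespace Run

variable {κ ε : ℝ} {P0 : Fin k → M} (R : Run M k κ ε P0)

open Classical in
/-- the requests grouped with request `n` -/
noncomputable def G (n : ℕ) : Finset ℕ :=
  (insert n (R.P n)).filter (fun t => Near κ (R.σ t) (R.lam t) (R.σ n) (R.lam n))

/-- step `n` is hard -/
def hard (n : ℕ) : Prop := 1 ≤ ε * ((R.G n).card : ℝ)

/-- `∑_{t<n} ε λ_t` -/
noncomputable def V (n : ℕ) : ℝ := ∑ t ∈ Finset.range n, ε * R.lam t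

open Classical in
/-- the hard steps before `n` -/
noncomputable def hards (n : ℕ) : Finset ℕ := (Finset.range n).filter (fun τ => R.hard τ)

/-- the bump of a pending request `t` at the point `u`, where `d` is the current deficit at `u` -/
noncomputable def bump (t : ℕ) (d : ℝ) (u : M) : ℝ :=
  max 0 (R.lam t / 2 - |d - R.lam t| - κ * dist u (R.σ t))

/-- the potential of the point `u` for the function `m` and the pending set `Q` -/
noncomputable def Theta (m : (Fin k → M) → ℝ) (Q : Finset ℕ) (u : M) : ℝ :=
  (psi m u + zeta m u) / 2 + ε / 4 * ∑ t ∈ Q, R.bump t (delta m u) u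

/-- normalized cost of the schedule `X` for the first `n` requests -/
noncomputable def cost (X : ℕ → (Fin k → M)) (n : ℕ) : ℝ :=
  ∑ t ∈ Finset.range n, (ε * dmin (X t) (R.σ t) + move (X t) (X (t + 1)))

end Run

end H63K
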