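import Pool.Agent.Lib.H63K.Psi

/-! Chunk DEL: the facts (1.1), (1.2), (1.4) on the deficit `delta`. -/

namespace H63K

variable {M : Type*} [MetricSpace M] {k : ℕ} {P0 : Fin k → M} {m : (Fin k → M) → ℝ}

theorem del_sum_update {N : Type*} (f : N → ℝ) (C : Fin k → N) (j : Fin k) (x : N) :
    ∑ l, f (Function.update C j x l) = ∑ l, f (C l) + (f x - f (C j)) := by
  rw [← Finset.add_sum_erase _ _ (Finset.mem_univ j),
    ← Finset.add_sum_erase Finset.univ (fun l => f (C l)) (Finset.mem_univ j),
    Function.update_self]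
  have h : ∑ l ∈ Finset.univ.erase j, f (Function.update C j x l) =
      ∑ l ∈ Finset.univ.erase j, f (C l) := by
    refine Finset.sum_congr rfl fun l hl => ?_
    rw [Function.update_of_ne (Finset.ne_of_mem_erase hl)]
  rw [h]
  ring

/-- (1.1). Proof: let `C j = v`. `Good.exchange C X j` gives `i` with
`m (C[j ↦ X_i]) + m (X[i ↦ v]) ≤ m C + m X`. Since `C j = v`,
`gval m v (C[j ↦ X_i]) = m (C[j ↦ X_i]) - ∑_{l ≠ j} d(v, C_l) - d(v, X_i)` and
`gval m v C = m C - ∑_{l ≠ j} d(v, C_l)`. So
`T v m X ≤ m (X[i ↦ v]) + d(X_i, v) ≤ m X + gval m v C - gval m v (C[j ↦ X_i])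
≤ m X + gval m v C - psi m v`. Take the infimum over `C` (`le_zeta`). -/
theorem T_le_delta [NeZero k] (hm : Good P0 m) (v : M) (X : Fin k → M) :
    T v m X ≤ m X + delta m v := by
  have h : T v m X - m X + psi m v ≤ zeta m v := by
    refine le_zeta fun C j hC => ?_
    obtain ⟨i, hi⟩ := hm.exchange C X j
    have h1 := psi_le hm v (Function.update C j (X i))
    have h2 := T_le v m X i
    rw [hC] at hi
    unfold gval at h1 ⊢
    rw [del_sum_update (fun y => dist v y) C j (X i), hC, dist_self] at h1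
    rw [dist_comm (X i) v] at h2
    linarith
  unfold delta
  linarith

/-- Proof: `exists_T`: `T u m X = m (X[i ↦ u]) + d(X_i, u)` and
`gval m u (X[i ↦ u]) = m (X[i ↦ u]) - ∑_{l ≠ i} d(u, X_l)`; `zeta_le` for `X[i ↦ u]`. -/
theorem zeta_le_T [NeZero k] (hm : Good P0 m) (u : M) (X : Fin k → M) :
    zeta m u ≤ gval m u X + (T u m X - m X) := by
  obtain ⟨i, hi⟩ := exists_T u m X
  have h1 := zeta_le hm u (Function.update X i u) i (Function.update_self ..)
  unfold gval at h1 ⊢
  rw [del_sum_update (fun y => dist u y) X i u, dist_self] at h1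
  rw [hi, dist_comm (X i) u]
  linarith

/-- Proof: `zeta m u ≤ gval m u X + (T u m X - m X) ≤ gval m u X + (T v m X - m X) + 2 d(u,v)
≤ gval m u X + delta m v + 2 d(u,v)` for all `X`; `le_psi`. -/
theorem delta_lip [NeZero k] (hm : Good P0 m) (u v : M) :
    delta m u ≤ delta m v + 2 * dist u v := by
  have h : zeta m u - delta m v - 2 * dist u v ≤ psi m u := by
    refine le_psi fun X => ?_
    have h1 := zeta_le_T hm u X
    have h2 := T_dist hm.lip u v X
    have h3 := T_le_delta hm v X
    linarith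
  have h1 : delta m u = zeta m u - psi m u := rfl
  rw [h1]
  linarith

/-- Proof: `delta (T r m) r ≤ 0` by `zeta_le_T` and `T_T`, then `delta_lip` for `T r m`. -/
theorem delta_T [NeZero k] (hm : Good P0 m) (r u : M) : delta (T r m) u ≤ 2 * dist u r := by
  have hT := hm.T r
  have h1 := delta_lip hT u r
  have h2 : zeta (T r m) r ≤ psi (T r m) r := by
    refine le_psi fun X => ?_
    have h3 := zeta_le_T hT r X
    have h4 := T_T r m X
    linarith
  have h3 : delta (T r m) r = zeta (T r m) r - psi (T r m) r := rfl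
  rw [h3] at h1
  linarith

/-- (1.4). Proof: `T u m S = m (S[i ↦ u]) + d(S_i, u) ≤ m S + delta m u` and
`m S ≤ m (S[i ↦ u]) + d(S_i, u) / 2`. -/
theorem dmin_le_delta [NeZero k] (hm : Good P0 m) (S : Fin k → M)
    (hS : ∀ X, m S ≤ m X + 1 / 2 * move S X) (u : M) : dmin S u ≤ 2 * delta m u := by
  obtain ⟨i, hi⟩ := exists_T u m S
  have h1 := T_le_delta hm u S
  have h2 := hS (Function.update S i u)
  rw [move_update] at h2
  have h3 := dmin_le S u i
  linarith

end H63K
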