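import Pool.Agent.Lib.H63K.Mass

/-! Chunk DOM1: section 6 of PROOF.md, first part. -/

namespace H63K

variable {M : Type*} [MetricSpace M] {k : ℕ} {κ ε : ℝ} {P0 : Fin k → M}

namespace Run

/-- the increase of the value of `X` at step `τ` -/
noncomputable def incr (R : Run M k κ ε P0) (X : ℕ → (Fin k → M)) (τ : ℕ) : ℝ :=
  T (R.σ τ) (R.m τ) (X τ) - R.m τ (X τ)

theorem incr_nonneg [NeZero k] (R : Run M k κ ε P0) (X : ℕ → (Fin k → M)) (τ : ℕ) :
    0 ≤ R.incr X τ := by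
  unfold incr
  have := le_T (R.good τ).lip (R.σ τ) (X τ)
  linarith

theorem incr_le_lam [NeZero k] (R : Run M k κ ε P0) (X : ℕ → (Fin k → M)) (τ : ℕ) :
    R.incr X τ ≤ R.lam τ := by
  unfold incr
  have := T_le_delta (R.good τ) (R.σ τ) (X τ)
  rw [R.lam_eq]
  linarith

theorem incr_le_dmin [NeZero k] (R : Run M k κ ε P0) (X : ℕ → (Fin k → M)) (τ : ℕ) :
    R.incr X τ ≤ 2 * dmin (X τ) (R.σ τ) := by
  unfold incr
  have := T_le_dmin (R.good τ).lip (R.σ τ) (X τ)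
  linarith

/-- induction on `n` -/
theorem m_le_sum_incr [NeZero k] (R : Run M k κ ε P0) (X : ℕ → (Fin k → M)) (hX : X 0 = P0)
    (n : ℕ) : R.m n (X n) ≤
      ∑ s ∈ Finset.range n, move (X s) (X (s + 1)) + ∑ τ ∈ R.hards n, R.incr X τ := by
  induction n with
  | zero =>
    have h1 : R.hards 0 = ∅ := by
      unfold hards
      simp
    rw [hX, R.zero_m, h1, Finset.range_zero, Finset.sum_empty, Finset.sum_empty, add_zero]
  | succ n ih =>
    have h1 := (R.good (n + 1)).lip (X (n + 1)) (X n)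
    rw [move_comm] at h1
    rw [Finset.sum_range_succ]
    by_cases h : R.hard n
    · have h2 : R.hards (n + 1) = insert n (R.hards n) := by
        unfold hards
        rw [Finset.range_add_one, Finset.filter_insert, if_pos h]
      have h3 : n ∉ R.hards n := by
        unfold hards
        simp
      rw [h2, Finset.sum_insert h3]
      have h4 : R.m (n + 1) (X n) = R.m n (X n) + R.incr X n := by
        rw [R.m_succ_of_hard h]
        unfold incr
        ring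
      linarith
    · have h2 : R.hards (n + 1) = R.hards n := by
        unfold hards
        rw [Finset.range_add_one, Finset.filter_insert, if_neg h]
      rw [h2]
      have h4 : R.m (n + 1) (X n) = R.m n (X n) := by
        rw [R.m_succ_of_not_hard h]
      linarith

/-- for `t ∈ G τ` -/
theorem dist_of_mem_G [NeZero k] (hκ : 8 ≤ κ) (R : Run M k κ ε P0) {t τ : ℕ} (h : t ∈ R.G τ) :
    κ * dist (R.σ t) (R.σ τ) ≤ 2 * R.lam τ ∧ R.lam τ < 3 * R.lam t := by
  obtain ⟨h1, h2, h3⟩ := (R.mem_G.1 h).2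
  exact ⟨by linarith, h3⟩

/-- case A: the mass of the bad `t` is at least 1/2 -/
theorem case_A [NeZero k] (hε : 0 < ε) (R : Run M k κ ε P0) (X : ℕ → (Fin k → M)) {τ : ℕ}
    (U : Finset ℕ) (hU : U ⊆ R.G τ) (hmass : 1 / 2 ≤ ε * (U.card : ℝ))
    (h : ∀ t ∈ U, R.incr X τ / 192 ≤ dmin (X t) (R.σ t)) :
    R.incr X τ ≤ 384 * ∑ t ∈ R.G τ, ε * dmin (X t) (R.σ t) := by
  have h0 := R.incr_nonneg X τ
  have h1 : R.incr X τ / 192 * (1 / 2) ≤ R.incr X τ / 192 * (ε * (U.card : ℝ)) :=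
    mul_le_mul_of_nonneg_left hmass (by linarith)
  have h2 : R.incr X τ / 192 * (ε * (U.card : ℝ)) ≤ ∑ t ∈ U, ε * dmin (X t) (R.σ t) := by
    calc R.incr X τ / 192 * (ε * (U.card : ℝ)) = ∑ _t ∈ U, ε * (R.incr X τ / 192) := by
          rw [Finset.sum_const, nsmul_eq_mul]
          ring
      _ ≤ _ := Finset.sum_le_sum fun t ht => mul_le_mul_of_nonneg_left (h t ht) hε.le
  have h3 : ∑ t ∈ U, ε * dmin (X t) (R.σ t) ≤ ∑ t ∈ R.G τ, ε * dmin (X t) (R.σ t) :=
    Finset.sum_le_sum_of_subset_of_nonneg hU fun t _ _ => mul_nonneg hε.le (dmin_nonneg _ _)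
  linarith

/-- trichotomy for a hard step (cases 0, A, B) -/
theorem trichotomy [NeZero k] (hκ : 8 ≤ κ) (hε : 0 < ε) (R : Run M k κ ε P0)
    (X : ℕ → (Fin k → M)) {τ : ℕ} (hτ : R.hard τ) :
    κ * R.incr X τ ≤ 384 * R.lam τ ∨
    R.incr X τ ≤ 384 * ∑ t ∈ R.G τ, ε * dmin (X t) (R.σ t) ∨
    (384 * R.lam τ < κ * R.incr X τ ∧ 0 < R.incr X τ ∧
      ∃ t ∈ R.P τ, t < τ ∧ t ∈ R.G τ ∧ ∃ i, dist (X t i) (R.σ t) < R.incr X τ / 192) := by
  classical
  by_cases h1 : κ * R.incr X τ ≤ 384 * R.lam τ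
  · exact Or.inl h1
  refine Or.inr ?_
  push Not at h1
  have hlam := R.lam_nonneg τ
  have hpos : 0 < R.incr X τ := by
    by_contra h2
    push Not at h2
    have h3 : κ * R.incr X τ ≤ 0 := mul_nonpos_of_nonneg_of_nonpos (by linarith) h2
    linarith
  set U := (R.G τ).filter (fun t => R.incr X τ / 192 ≤ dmin (X t) (R.σ t)) with hU
  by_cases h2 : 1 / 2 ≤ ε * (U.card : ℝ)
  · exact Or.inl (R.case_A hε X U (Finset.filter_subset _ _) h2
      fun t ht => (Finset.mem_filter.1 ht).2)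
  · refine Or.inr ⟨h1, hpos, ?_⟩
    push Not at h2
    have h3 : ∃ t ∈ R.G τ, dmin (X t) (R.σ t) < R.incr X τ / 192 := by
      by_contra hcon
      push Not at hcon
      have h4 : U = R.G τ := by
        rw [hU]
        exact Finset.filter_true_of_mem hcon
      have h5 : 1 ≤ ε * ((R.G τ).card : ℝ) := hτ
      rw [h4] at h2
      linarith
    obtain ⟨t, ht, hlt⟩ := h3
    rcases (R.mem_G.1 ht).1 with h4 | h4
    · exfalso
      rw [h4] at hlt
      have h5 := R.incr_le_dmin X τ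
      linarith
    · obtain ⟨i, hi⟩ := exists_dmin (X t) (R.σ t)
      exact ⟨t, h4, R.P_lt h4, ht, i, by rw [hi]; exact hlt⟩

/-- disjointness of the balls; `t2 ∈ P τ2`, `t2 < τ1 < τ2`: `t2` is pending before and after `τ1` -/
theorem balls_disjoint [NeZero k] (hκ : 8 ≤ κ) (R : Run M k κ ε P0)
    (X : ℕ → (Fin k → M)) {τ1 τ2 t2 : ℕ} (h1 : R.hard τ1) (h12 : τ1 < τ2) (ht2 : t2 < τ1)
    (hP : t2 ∈ R.P τ2) (hG : t2 ∈ R.G τ2) (h0 : 384 * R.lam τ2 < κ * R.incr X τ2) :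
    R.incr X τ1 / 48 + R.incr X τ2 / 48 ≤ dist (R.σ τ1) (R.σ τ2) := by
  have hκ0 : 0 < κ := by linarith
  -- after the step
  have hP1 : t2 ∈ R.P (τ1 + 1) := R.P_anti hP (by omega) (by omega)
  have h3 := abs_lt.1 (R.P_valid hP1)
  rw [R.m_succ_of_hard h1] at h3
  have h4 := delta_T (R.good τ1) (R.σ τ1) (R.σ t2)
  -- before the step
  have hP0 : t2 ∈ R.P τ1 := R.P_anti hP (by omega) ht2
  have h5 := abs_lt.1 (R.P_valid hP0)
  have h6 := delta_lip (R.good τ1) (R.σ τ1) (R.σ t2)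
  rw [← R.lam_eq, dist_comm] at h6
  obtain ⟨h7, h8⟩ := R.dist_of_mem_G hκ hG
  have h9 : dist (R.σ t2) (R.σ τ2) < R.incr X τ2 / 192 := by
    have h10 : κ * dist (R.σ t2) (R.σ τ2) < κ * (R.incr X τ2 / 192) := by linarith
    exact lt_of_mul_lt_mul_left h10 hκ0.le
  have h10 := R.incr_le_lam X τ1
  have h11 := R.incr_le_lam X τ2
  have h12 : dist (R.σ t2) (R.σ τ1) ≤ dist (R.σ t2) (R.σ τ2) + dist (R.σ τ1) (R.σ τ2) := by
    rw [dist_comm (R.σ τ1)]
    exact dist_triangle _ _ _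
  obtain ⟨h3a, h3b⟩ := h3
  obtain ⟨h5a, h5b⟩ := h5
  linarith

end Run

end H63K
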