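import Pool.Agent.Lib.H63K.Dom1
import Pool.Agent.Lib.H63K.Cross

/-! Chunk DOM2: section 6 of PROOF.md, conclusion. -/

namespace H63K

variable {M : Type*} [MetricSpace M] {k : ℕ} {κ ε : ℝ} {P0 : Fin k → M}

namespace Run

/-- split `hards n` by `trichotomy` (first alternative that holds). Case 0: `sum_hard_lam`.
Case A: `sum_G_le` with `f t = ε * dmin (X t) (σ t)`. Case B: choose `t τ`, `i τ`; `crossing` with
`c = incr`, `p = σ`, whose hypotheses follow from `dist_of_mem_G`, `incr_le_dmin`,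
`balls_disjoint`. -/
theorem sum_incr [NeZero k] (hκ : 8 ≤ κ) (hε : 0 < ε) (R : Run M k κ ε P0)
    (X : ℕ → (Fin k → M)) (n : ℕ) :
    ∑ τ ∈ R.hards n, R.incr X τ ≤ 192 * ∑ s ∈ Finset.range n, move (X s) (X (s + 1)) +
      384 * ∑ t ∈ Finset.range n, ε * dmin (X t) (R.σ t) + 1152 / κ * R.V n := by
  classical
  have hκ0 : 0 < κ := by linarith
  have hhard : ∀ τ ∈ R.hards n, R.hard τ ∧ τ < n := by
    intro τ hτ
    unfold hards at hτ
    rw [Finset.mem_filter, Finset.mem_range] at hτ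
    exact ⟨hτ.2, hτ.1⟩
  have hf0 : ∀ t, 0 ≤ ε * dmin (X t) (R.σ t) := fun t => mul_nonneg hε.le (dmin_nonneg _ _)
  set p0 : ℕ → Prop := fun τ => κ * R.incr X τ ≤ 384 * R.lam τ with hp0
  set pA : ℕ → Prop := fun τ => R.incr X τ ≤ 384 * ∑ t ∈ R.G τ, ε * dmin (X t) (R.σ t) with hpA
  have hs1 := Finset.sum_filter_add_sum_filter_not (R.hards n) p0 (fun τ => R.incr X τ)
  have hs2 := Finset.sum_filter_add_sum_filter_not ((R.hards n).filter fun τ => ¬ p0 τ) pA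
    (fun τ => R.incr X τ)
  -- case 0
  have h0 : ∑ τ ∈ (R.hards n).filter p0, R.incr X τ ≤ 1152 / κ * R.V n := by
    have h1 : ∑ τ ∈ (R.hards n).filter p0, R.incr X τ ≤
        ∑ τ ∈ (R.hards n).filter p0, 384 / κ * R.lam τ := by
      refine Finset.sum_le_sum fun τ hτ => ?_
      have h2 : κ * R.incr X τ ≤ 384 * R.lam τ := (Finset.mem_filter.1 hτ).2
      rw [div_mul_eq_mul_div, le_div_iff₀ hκ0]
      linarith
    have h3 : ∑ τ ∈ (R.hards n).filter p0, 384 / κ * R.lam τ ≤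
        ∑ τ ∈ R.hards n, 384 / κ * R.lam τ :=
      Finset.sum_le_sum_of_subset_of_nonneg (Finset.filter_subset _ _) fun τ _ _ =>
        mul_nonneg (by positivity) (R.lam_nonneg τ)
    rw [← Finset.mul_sum, ← Finset.mul_sum] at h3
    rw [← Finset.mul_sum] at h1
    have h4 := mul_le_mul_of_nonneg_left (R.sum_hard_lam hκ hε n)
      (by positivity : (0 : ℝ) ≤ 384 / κ)
    have h5 : 384 / κ * (3 * R.V n) = 1152 / κ * R.V n := by ring
    linarith
  -- case A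
  have hA : ∑ τ ∈ ((R.hards n).filter fun τ => ¬ p0 τ).filter pA, R.incr X τ ≤
      384 * ∑ t ∈ Finset.range n, ε * dmin (X t) (R.σ t) := by
    have h1 : ∑ τ ∈ ((R.hards n).filter fun τ => ¬ p0 τ).filter pA, R.incr X τ ≤
        ∑ τ ∈ ((R.hards n).filter fun τ => ¬ p0 τ).filter pA,
          384 * ∑ t ∈ R.G τ, ε * dmin (X t) (R.σ t) :=
      Finset.sum_le_sum fun τ hτ => (Finset.mem_filter.1 hτ).2
    have h2 : ∑ τ ∈ ((R.hards n).filter fun τ => ¬ p0 τ).filter pA,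
          384 * ∑ t ∈ R.G τ, ε * dmin (X t) (R.σ t) ≤
        ∑ τ ∈ R.hards n, 384 * ∑ t ∈ R.G τ, ε * dmin (X t) (R.σ t) :=
      Finset.sum_le_sum_of_subset_of_nonneg
        ((Finset.filter_subset _ _).trans (Finset.filter_subset _ _)) fun τ _ _ =>
        mul_nonneg (by norm_num) (Finset.sum_nonneg fun t _ => hf0 t)
    rw [← Finset.mul_sum, ← Finset.mul_sum] at h2
    rw [← Finset.mul_sum] at h1
    have h3 := R.sum_G_le hκ (fun t => ε * dmin (X t) (R.σ t)) hf0 n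
    linarith
  -- case B
  have hB : ∑ τ ∈ ((R.hards n).filter fun τ => ¬ p0 τ).filter (fun τ => ¬ pA τ), R.incr X τ ≤
      192 * ∑ s ∈ Finset.range n, move (X s) (X (s + 1)) := by
    set HB := ((R.hards n).filter fun τ => ¬ p0 τ).filter (fun τ => ¬ pA τ) with hHB
    have hmem : ∀ τ ∈ HB, R.hard τ ∧ τ < n ∧ 384 * R.lam τ < κ * R.incr X τ ∧ 0 < R.incr X τ ∧
        ∃ t ∈ R.P τ, t < τ ∧ t ∈ R.G τ ∧ ∃ i, dist (X t i) (R.σ t) < R.incr X τ / 192 := by
      intro τ hτ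
      rw [hHB, Finset.mem_filter, Finset.mem_filter] at hτ
      obtain ⟨⟨h1, h2⟩, h3⟩ := hτ
      obtain ⟨h4, h5⟩ := hhard τ h1
      rcases R.trichotomy hκ hε X h4 with h | h | h
      · exact absurd h h2
      · exact absurd h h3
      · exact ⟨h4, h5, h.1, h.2.1, h.2.2⟩
    have hchoice : ∀ τ, ∃ (t : ℕ) (i : Fin k), τ ∈ HB → t ∈ R.P τ ∧ t < τ ∧ t ∈ R.G τ ∧
        dist (X t i) (R.σ t) < R.incr X τ / 192 := by
      intro τ
      by_cases hτ : τ ∈ HB
      · obtain ⟨-, -, -, -, t, h1, h2, h3, i, h4⟩ := hmem τ hτ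
        exact ⟨t, i, fun _ => ⟨h1, h2, h3, h4⟩⟩
      · exact ⟨0, 0, fun h => absurd h hτ⟩
    choose t i hti using hchoice
    refine crossing n HB X (fun τ => R.incr X τ) R.σ t i ?_ ?_ ?_ ?_
    · intro τ hτ
      exact ⟨(hti τ hτ).2.1, (hmem τ hτ).2.1.le⟩
    · intro τ hτ
      obtain ⟨-, -, h3, h4⟩ := hti τ hτ
      obtain ⟨-, -, h5, h6, -⟩ := hmem τ hτ
      have h7 := (R.dist_of_mem_G hκ h3).1
      have h8 := dist_triangle (X (t τ) (i τ)) (R.σ (t τ)) (R.σ τ)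
      have h9 : dist (R.σ (t τ)) (R.σ τ) ≤ R.incr X τ / 192 := by
        have h10 : κ * dist (R.σ (t τ)) (R.σ τ) ≤ κ * (R.incr X τ / 192) := by linarith
        exact le_of_mul_le_mul_left h10 hκ0
      show dist (X (t τ) (i τ)) (R.σ τ) ≤ R.incr X τ / 96
      linarith
    · intro τ hτ
      obtain ⟨-, -, -, h6, -⟩ := hmem τ hτ
      have h7 := R.incr_le_dmin X τ
      have h8 := dmin_le (X τ) (R.σ τ) (i τ)
      show R.incr X τ / 48 ≤ dist (X τ (i τ)) (R.σ τ)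
      linarith
    · intro τ1 h1 τ2 h2 h12 ht
      obtain ⟨h3, -, h4, -⟩ := hti τ2 h2
      exact R.balls_disjoint hκ X (hmem τ1 h1).1 h12 ht h3 (hti τ2 h2).2.2.1
        (hmem τ2 h2).2.2.1
  linarith

theorem domination [NeZero k] (hκ : 8 ≤ κ) (hε : 0 < ε) (R : Run M k κ ε P0)
    (X : ℕ → (Fin k → M)) (hX : X 0 = P0) (n : ℕ) :
    R.m n (X n) ≤ 384 * R.cost X n + 1152 / κ * R.V n := by
  have h1 := R.m_le_sum_incr X hX n
  have h2 := R.sum_incr hκ hε X n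
  have h3 : 0 ≤ ∑ s ∈ Finset.range n, move (X s) (X (s + 1)) :=
    Finset.sum_nonneg fun s _ => move_nonneg _ _
  unfold cost
  rw [Finset.sum_add_distrib]
  linarith

end Run

end H63K
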