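import Pool.Agent.Lib.H63K.Base

/-! Chunk EX: the online algorithm exists. -/

namespace H63K

variable {M : Type*} [MetricSpace M] {k : ℕ}

/-- the state after the requests `σ 0, ..., σ (n-1)` -/
noncomputable def runState (κ ε : ℝ) (P0 : Fin k → M) (p : M) (σ : ℕ → M) (n : ℕ) : State M k :=
  ((List.range n).map σ).foldl (step κ ε) (init p P0)

theorem runState_succ (κ ε : ℝ) (P0 : Fin k → M) (p : M) (σ : ℕ → M) (n : ℕ) :
    runState κ ε P0 p σ (n + 1) = step κ ε (runState κ ε P0 p σ n) (σ n) := by
  unfold runState
  rw [List.range_succ, List.map_append, List.foldl_append]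
  rfl

theorem ex_step_n (κ ε : ℝ) (st : State M k) (r : M) : (step κ ε st r).n = st.n + 1 := rfl

theorem ex_step_pos (κ ε : ℝ) (st : State M k) (r : M) :
    (step κ ε st r).pos = Function.update st.pos st.n r := rfl

theorem ex_step_lam (κ ε : ℝ) (st : State M k) (r : M) :
    (step κ ε st r).lam = Function.update st.lam st.n (delta st.m r) := rfl

theorem runState_n (κ ε : ℝ) (P0 : Fin k → M) (p : M) (σ : ℕ → M) (n : ℕ) :
    (runState κ ε P0 p σ n).n = n := by
  induction n with
  | zero => rfl
  | succ n ih => rw [runState_succ, ex_step_n, ih]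

theorem runState_pos (κ ε : ℝ) (P0 : Fin k → M) (p : M) (σ : ℕ → M) (n t : ℕ) (h : t < n) :
    (runState κ ε P0 p σ n).pos t = σ t := by
  induction n with
  | zero => omega
  | succ n ih =>
    rw [runState_succ, ex_step_pos, runState_n]
    by_cases h1 : t = n
    · rw [h1, Function.update_self]
    · rw [Function.update_of_ne h1, ih (by omega)]

theorem runState_lam (κ ε : ℝ) (P0 : Fin k → M) (p : M) (σ : ℕ → M) (n t : ℕ) (h : t < n) :
    (runState κ ε P0 p σ n).lam t = delta (runState κ ε P0 p σ t).m (σ t) := by
  induction n with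
  | zero => omega
  | succ n ih =>
    rw [runState_succ, ex_step_lam, runState_n]
    by_cases h1 : t = n
    · rw [h1, Function.update_self]
    · rw [Function.update_of_ne h1, ih (by omega)]

theorem ex_mem_step (κ ε : ℝ) (st : State M k) (r : M) {t : ℕ} (h : t ∈ (step κ ε st r).P) :
    t = st.n ∨ t ∈ st.P := by
  have h1 : t ∈ insert st.n st.P := Finset.mem_of_mem_filter t h
  exact Finset.mem_insert.1 h1

theorem runState_P (κ ε : ℝ) (P0 : Fin k → M) (p : M) (σ : ℕ → M) (n t : ℕ)
    (h : t ∈ (runState κ ε P0 p σ n).P) : t < n := by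
  induction n with
  | zero => exact absurd h (Finset.notMem_empty t)
  | succ n ih =>
    rw [runState_succ] at h
    rcases ex_mem_step κ ε _ _ h with h1 | h1
    · rw [runState_n] at h1
      omega
    · have := ih h1
      omega

theorem ex_step_m (κ ε : ℝ) (st : State M k) (r : M) :
    (step κ ε st r).m = T r st.m ∨ (step κ ε st r).m = st.m := by
  unfold step
  simp only
  split_ifs
  · exact Or.inl rfl
  · exact Or.inr rfl

theorem runState_good [NeZero k] (κ ε : ℝ) (P0 : Fin k → M) (p : M) (σ : ℕ → M) (n : ℕ) :
    Good P0 (runState κ ε P0 p σ n).m ∧ ∃ F : Finset M, Supp F (runState κ ε P0 p σ n).m := by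
  induction n with
  | zero => exact ⟨good_m0 P0, supp_m0 P0⟩
  | succ n ih =>
    rw [runState_succ]
    rcases ex_step_m κ ε (runState κ ε P0 p σ n) (σ n) with h | h
    · rw [h]
      exact ⟨ih.1.T _, supp_T ih.1 ih.2 _⟩
    · rw [h]
      exact ih

/-- Proof: `A l = (l.foldl (step κ ε) (init (P0 0) P0)).S`; the run consists of the components of
`runState`, with `lam n = delta (m n) (σ n)`. The filters in `step` use `pos'`, `lam'`, which
agree with `σ`, `lam` on `insert n (P n)` (`runState_P`, `runState_pos`, `runState_lam`);
`Finset.filter_congr`. The minimizer exists by `exists_argmin`. -/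
theorem exists_run [NeZero k] (κ ε : ℝ) (P0 : Fin k → M) :
    ∃ A : List M → (Fin k → M), A [] = P0 ∧ ∀ σ : ℕ → M,
      ∃ R : Run M k κ ε P0, R.σ = σ ∧ ∀ n, R.S n = A ((List.range n).map σ) := by
  classical
  refine ⟨fun l => (l.foldl (step κ ε) (init (P0 0) P0)).S, rfl, fun σ => ?_⟩
  set st : ℕ → State M k := fun n => runState κ ε P0 (P0 0) σ n with hst
  set lam : ℕ → ℝ := fun n => delta (st n).m (σ n) with hlam
  have hQ : ∀ n t, t ∈ insert n (st n).P →
      Function.update (st n).pos n (σ n) t = σ t ∧
      Function.update (st n).lam n (delta (st n).m (σ n)) t = lam t := by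
    intro n t ht
    by_cases h1 : t = n
    · rw [h1, Function.update_self, Function.update_self]
      exact ⟨rfl, rfl⟩
    · have h2 : t ∈ (st n).P := (Finset.mem_insert.1 ht).resolve_left h1
      have h3 : t < n := runState_P κ ε P0 (P0 0) σ n t h2
      rw [Function.update_of_ne h1, Function.update_of_ne h1]
      exact ⟨runState_pos κ ε P0 (P0 0) σ n t h3, runState_lam κ ε P0 (P0 0) σ n t h3⟩
  have hn : ∀ n, (st n).n = n := fun n => runState_n κ ε P0 (P0 0) σ n
  have hsucc : ∀ n, st (n + 1) = step κ ε (st n) (σ n) := fun n =>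
    runState_succ κ ε P0 (P0 0) σ n
  -- the group
  have hG : ∀ n, (insert (st n).n (st n).P).filter (fun t =>
        Near κ (Function.update (st n).pos (st n).n (σ n) t)
          (Function.update (st n).lam (st n).n (delta (st n).m (σ n)) t) (σ n)
          (delta (st n).m (σ n))) =
      (insert n (st n).P).filter (fun t => Near κ (σ t) (lam t) (σ n) (lam n)) := by
    intro n
    rw [hn]
    refine Finset.filter_congr fun t ht => ?_
    obtain ⟨h1, h2⟩ := hQ n t ht
    rw [h1, h2]
  have hm : ∀ n, (st (n + 1)).m =
      if 1 ≤ ε * (((insert n (st n).P).filter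
        (fun t => Near κ (σ t) (lam t) (σ n) (lam n))).card : ℝ) then T (σ n) (st n).m
      else (st n).m := by
    intro n
    rw [hsucc, ← hG n]
    rfl
  have hP : ∀ n, (st (n + 1)).P = (insert n (st n).P).filter
      (fun t => |delta (st (n + 1)).m (σ t) - lam t| < lam t / 2) := by
    intro n
    have h1 : (st (n + 1)).P = (insert (st n).n (st n).P).filter (fun t =>
        |delta (st (n + 1)).m (Function.update (st n).pos (st n).n (σ n) t) -
          Function.update (st n).lam (st n).n (delta (st n).m (σ n)) t| <
        Function.update (st n).lam (st n).n (delta (st n).m (σ n)) t / 2) := by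
      rw [hsucc]
      rfl
    rw [h1, hn]
    refine Finset.filter_congr fun t ht => ?_
    obtain ⟨h2, h3⟩ := hQ n t ht
    rw [h2, h3]
  have hS : ∀ n X, (st (n + 1)).m (st (n + 1)).S + 1 / 2 * move (st n).S (st (n + 1)).S ≤
      (st (n + 1)).m X + 1 / 2 * move (st n).S X := by
    intro n
    have hex := exists_argmin (runState_good κ ε P0 (P0 0) σ (n + 1)).2 (st n).S
    have h1 : (st (n + 1)).S = if h : ∃ S' : Fin k → M, ∀ X,
        (st (n + 1)).m S' + 1 / 2 * move (st n).S S' ≤
          (st (n + 1)).m X + 1 / 2 * move (st n).S X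
        then h.choose else (st n).S := by
      rw [hsucc]
      rfl
    rw [h1, dif_pos hex]
    exact hex.choose_spec
  exact ⟨{ σ := σ
           m := fun n => (st n).m
           P := fun n => (st n).P
           lam := lam
           S := fun n => (st n).S
           good := fun n => (runState_good κ ε P0 (P0 0) σ n).1
           zero_m := m0_self P0
           zero_P := rfl
           zero_S := rfl
           lam_eq := fun n => rfl
           m_hard := fun n h => by rw [hm n, if_pos h]
           m_soft := fun n h => by rw [hm n, if_neg h]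
           P_succ := hP
           S_succ := hS }, rfl, fun n => rfl⟩

end H63K
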