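import Pool.Agent.Lib.H63K.Growth
import Pool.Agent.Lib.H63K.Dom2
import Pool.Agent.Lib.H63K.AlgCost

/-! Chunk FIN1: section 7 of PROOF.md. -/

namespace H63K

/-- `κ = 18432 k`; `growth`, `domination`, `alg_cost`. Note `k * (1152 / (18432 k)) = 1 / 16`, and
`k + 2 + 18432 k + 384 k ≤ 18819 k`, `cost ≥ 0`. -/
theorem main_run {M : Type*} [MetricSpace M] {k : ℕ} [NeZero k] {ε : ℝ} {P0 : Fin k → M}
    (hε : 0 < ε) (hε1 : ε ≤ 1) (R : Run M k (18432 * (k : ℝ)) ε P0)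
    (X : ℕ → (Fin k → M)) (hX : X 0 = P0) (n : ℕ) :
    R.cost R.S n ≤ 2408832 * k * R.cost X n + 128 * ∑ i, ∑ j, dist (P0 i) (P0 j) := by
  have hk : (1 : ℝ) ≤ k := by
    have := Nat.one_le_iff_ne_zero.2 (NeZero.ne k)
    exact_mod_cast this
  have hκ : (8 : ℝ) ≤ 18432 * (k : ℝ) := by linarith
  have h1 := R.alg_cost hκ hε n
  have h2 := R.growth hκ hε hε1 X hX n
  have h3 := R.domination hκ hε X hX n
  have h4 : 0 ≤ R.cost X n := by
    unfold Run.cost
    refine Finset.sum_nonneg fun t _ => add_nonneg (mul_nonneg hε.le (dmin_nonneg _ _))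
      (move_nonneg _ _)
  have h5 := mul_le_mul_of_nonneg_left h3 (by linarith : (0 : ℝ) ≤ k)
  have h6 : (k : ℝ) * (384 * R.cost X n + 1152 / (18432 * (k : ℝ)) * R.V n) =
      384 * (k * R.cost X n) + R.V n / 16 := by
    have hk0 : (k : ℝ) ≠ 0 := by linarith
    field_simp
    ring
  rw [h6] at h5
  have h7 : R.cost X n ≤ k * R.cost X n := by nlinarith
  nlinarith

end H63K
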