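import Pool.Agent.Lib.H63K.Defs

/-! The statement of the result: definitions. -/

namespace H63K

universe u

/-- Cost of the online algorithm `A` on the request sequence `l`. A deterministic online algorithm
is a map `A` giving the configuration `A l` chosen after the requests `l` were seen (and `A []` is
the initial configuration). The request `l[t]` is served with the configuration chosen after
`t` requests, then the pages are moved. -/
noncomputable def algCost {M : Type u} [MetricSpace M] {k : ℕ} (D : ℝ)
    (A : List M → (Fin k → M)) (l : List M) : ℝ :=
  ∑ t : Fin l.length,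
    (dmin (A (l.take t)) (l.get t) + D * move (A (l.take t)) (A (l.take (t + 1))))

/-- cost of the offline schedule `X` on the request sequence `l` -/
noncomputable def schedCost {M : Type u} [MetricSpace M] {k : ℕ} (D : ℝ)
    (X : ℕ → (Fin k → M)) (l : List M) : ℝ :=
  ∑ t : Fin l.length, (dmin (X t) (l.get t) + D * move (X t) (X (t + 1)))

/-- offline optimum from the initial configuration `P0` -/
noncomputable def opt {M : Type u} [MetricSpace M] {k : ℕ} (D : ℝ) (P0 : Fin k → M)
    (l : List M) : ℝ :=
  ⨅ X : {X : ℕ → (Fin k → M) // X 0 = P0}, schedCost D X.1 l

/-- for every metric space and every `D ≥ 1` some deterministic online algorithm is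
`c`-competitive for `k`-page migration -/
def Competitive (k : ℕ) (c : ℝ) : Prop :=
  ∀ (M : Type u) [MetricSpace M] (D : ℝ), 1 ≤ D → ∀ P0 : Fin k → M,
    ∃ A : List M → (Fin k → M), A [] = P0 ∧
      ∃ b : ℝ, ∀ l : List M, algCost D A l ≤ c * opt D P0 l + b

/-- the deterministic competitive ratio of `k`-page migration -/
noncomputable def cdet (k : ℕ) : ℝ := sInf {c : ℝ | Competitive.{u} k c}

end H63K
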