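import Pool.Agent.Lib.H63K.Fin1
import Pool.Agent.Lib.H63K.Exist
import Pool.Agent.Lib.H63K.Stat

/-! Chunk FIN2: the algorithm is competitive. -/

namespace H63K

universe u

/-- translation of the cost of a schedule; `σ t = l.get t` for `t < l.length` -/
theorem schedCost_eq {M : Type u} [MetricSpace M] {k : ℕ} {D : ℝ} (hD : 1 ≤ D)
    {κ : ℝ} {P0 : Fin k → M} (R : Run M k κ (1 / D) P0) (X : ℕ → (Fin k → M)) (l : List M)
    (hl : ∀ t : Fin l.length, R.σ t = l.get t) :
    schedCost D X l = D * R.cost X l.length := by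
  unfold schedCost Run.cost
  rw [Finset.sum_range, Finset.mul_sum]
  refine Finset.sum_congr rfl fun t _ => ?_
  rw [← hl t]
  have hD0 : D ≠ 0 := by linarith
  field_simp

theorem FIN2_take {M : Type u} (σ : ℕ → M) (l : List M)
    (hl : ∀ t : Fin l.length, σ t = l.get t) (t : ℕ) (ht : t ≤ l.length) :
    l.take t = (List.range t).map σ := by
  apply List.ext_getElem
  · simp [ht]
  · intro i h1 h2
    simp only [List.length_take, lt_min_iff] at h1
    rw [List.getElem_take, List.getElem_map, List.getElem_range]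
    exact (hl ⟨i, h1.2⟩).symm

/-- `l.take t = (List.range t).map R.σ` for `t ≤ l.length` -/
theorem algCost_eq {M : Type u} [MetricSpace M] {k : ℕ} {D : ℝ} (hD : 1 ≤ D)
    {κ : ℝ} {P0 : Fin k → M} (R : Run M k κ (1 / D) P0) (A : List M → (Fin k → M))
    (hA : ∀ n, R.S n = A ((List.range n).map R.σ)) (l : List M)
    (hl : ∀ t : Fin l.length, R.σ t = l.get t) :
    algCost D A l = D * R.cost R.S l.length := by
  rw [← schedCost_eq hD R R.S l hl]
  unfold algCost schedCost
  refine Finset.sum_congr rfl fun t _ => ?_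
  rw [FIN2_take R.σ l hl t t.2.le, FIN2_take R.σ l hl (t + 1) t.2, ← hA, ← hA]

/-- `exists_run` with `κ = 18432 k`, `ε = 1 / D`; `b = D * 128 * ∑ ∑ dist`; for a list `l` take
`σ t = l.getD t (P0 0)`; `main_run` for every schedule `X`, then the infimum over `X`. -/
theorem competitive (k : ℕ) (hk : 1 ≤ k) : Competitive.{u} k (2408832 * k) := by
  intro M _ D hD P0
  haveI : NeZero k := ⟨by omega⟩
  have hk' : (1 : ℝ) ≤ k := by exact_mod_cast hk
  have hD0 : 0 < D := by linarith
  obtain ⟨A, hA0, hA⟩ := exists_run (18432 * (k : ℝ)) (1 / D) P0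
  refine ⟨A, hA0, D * (128 * ∑ i, ∑ j, dist (P0 i) (P0 j)), fun l => ?_⟩
  obtain ⟨R, hR, hRA⟩ := hA (fun t => l.getD t (P0 0))
  have hl : ∀ t : Fin l.length, R.σ t = l.get t := by
    intro t
    rw [hR]
    simp
  have hRA' : ∀ n, R.S n = A ((List.range n).map R.σ) := by
    intro n
    rw [hR]
    exact hRA n
  rw [algCost_eq hD R A hRA' l hl]
  have hc : (0 : ℝ) < 2408832 * k := by linarith
  have key : (D * R.cost R.S l.length - D * (128 * ∑ i, ∑ j, dist (P0 i) (P0 j))) /
      (2408832 * k) ≤ opt D P0 l := by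
    unfold opt
    haveI : Nonempty {X : ℕ → (Fin k → M) // X 0 = P0} := ⟨⟨fun _ => P0, rfl⟩⟩
    refine le_ciInf fun X => ?_
    rw [div_le_iff₀ hc, schedCost_eq hD R X.1 l hl]
    have h1 := main_run (by positivity : (0 : ℝ) < 1 / D)
      (by rw [div_le_one hD0]; exact hD) R X.1 X.2 l.length
    have h2 := mul_le_mul_of_nonneg_left h1 hD0.le
    linarith
  rw [div_le_iff₀ hc] at key
  linarith

end H63K
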