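import Pool.Agent.Lib.H63K.Basic
import Pool.Agent.Lib.H63K.Stat

/-! Chunk FIN3: negative ratios are impossible. -/

namespace H63K

universe u

/-- `M = ULift ℝ`, `D = 1`, `P0 = 0`, one request at `L > 0`: the optimum is at least `L` (the
first request is served with `P0`), the cost of the algorithm is nonnegative, so `0 ≤ c L + b`
for all `L > 0` if `c < 0` (`c * opt ≤ c * L`), a contradiction for large `L`. -/
theorem competitive_nonneg (k : ℕ) (hk : 1 ≤ k) (c : ℝ) (hc : Competitive.{u} k c) : 0 ≤ c := by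
  by_contra hneg
  push Not at hneg
  have : NeZero k := ⟨by omega⟩
  obtain ⟨A, hA0, b, hb⟩ := hc (ULift.{u} ℝ) 1 le_rfl (fun _ => ⟨0⟩)
  obtain ⟨L, hL, hL2⟩ : ∃ L : ℝ, 0 < L ∧ c * L + b < 0 := by
    refine ⟨(|b| + 1) / (-c), by have := abs_nonneg b; have : 0 < -c := by linarith
                                 positivity, ?_⟩
    have hc0 : c ≠ 0 := ne_of_lt hneg
    have h1 : c * ((|b| + 1) / (-c)) = -(|b| + 1) := by
      rw [div_neg, mul_neg, mul_div_cancel₀ _ hc0]
    rw [h1]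
    have := le_abs_self b
    linarith
  have h := hb [⟨L⟩]
  have h1 : 0 ≤ algCost 1 A [(⟨L⟩ : ULift.{u} ℝ)] := by
    unfold algCost
    apply Finset.sum_nonneg
    intro t _
    have ha := dmin_nonneg (A ([(⟨L⟩ : ULift.{u} ℝ)].take t)) ([(⟨L⟩ : ULift.{u} ℝ)].get t)
    have hb' := move_nonneg (A ([(⟨L⟩ : ULift.{u} ℝ)].take t))
      (A ([(⟨L⟩ : ULift.{u} ℝ)].take (t + 1)))
    linarith
  have h2 : L ≤ opt 1 (fun _ : Fin k => (⟨0⟩ : ULift.{u} ℝ)) [⟨L⟩] := by
    unfold opt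
    have : Nonempty {X : ℕ → (Fin k → ULift.{u} ℝ) // X 0 = fun _ => ⟨0⟩} :=
      ⟨⟨fun _ _ => ⟨0⟩, rfl⟩⟩
    apply le_ciInf
    rintro ⟨X, hX⟩
    unfold schedCost
    have h3 : ∀ t : Fin [(⟨L⟩ : ULift.{u} ℝ)].length,
        L ≤ dmin (X t) ([(⟨L⟩ : ULift.{u} ℝ)].get t) + 1 * move (X t) (X (t + 1)) := by
      intro t
      have ht : (t : ℕ) = 0 := by
        have := t.2
        simp only [List.length_singleton] at this
        omega
      have ht' : t = ⟨0, by simp⟩ := Fin.ext ht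
      subst ht'
      have hm := move_nonneg (X 0) (X (0 + 1))
      obtain ⟨i, hi⟩ := exists_dmin (X 0) (⟨L⟩ : ULift.{u} ℝ)
      have hd : dist (X 0 i) (⟨L⟩ : ULift.{u} ℝ) = L := by
        rw [hX]
        rw [ULift.dist_eq]
        simp [Real.dist_eq, abs_of_pos hL]
      simp only [List.get_eq_getElem, List.getElem_cons_zero]
      rw [← hi, hd]
      linarith
    have h4 := Finset.card_nsmul_le_sum (Finset.univ : Finset (Fin [(⟨L⟩ : ULift.{u} ℝ)].length))
      _ L (fun t _ => h3 t)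
    simp only [Finset.card_univ, Fintype.card_fin, List.length_singleton, one_smul] at h4
    exact h4
  have h5 : c * opt 1 (fun _ : Fin k => (⟨0⟩ : ULift.{u} ℝ)) [⟨L⟩] ≤ c * L :=
    mul_le_mul_of_nonpos_left h2 hneg.le
  linarith

end H63K
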