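import Pool.Agent.Lib.H63K.Theta

/-! Chunk GRO: section 5 of PROOF.md, the potential grows. -/

namespace H63K

variable {M : Type*} [MetricSpace M] {k : ℕ} {κ ε : ℝ} {P0 : Fin k → M}

namespace Run

/-- the claim `B_{n+1} ≥ B_n + ε λ_n / 8`: choose the page `i` of `X n` nearest to `σ n`
(`exists_dmin`), use `Theta_insert_gain` for this page, `Theta_insert_ge` for the others,
`Theta_step`, `Theta_delete`, `Theta_lip` at time `n + 1`. -/
theorem potential_step [NeZero k] (hκ : 8 ≤ κ) (hε : 0 < ε) (hε1 : ε ≤ 1) (R : Run M k κ ε P0)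
    (X : ℕ → (Fin k → M)) (n : ℕ) :
    (k + 2 + κ) * R.cost X n + ∑ i, R.Theta (R.m n) (R.P n) (X n i) + ε / 8 * R.lam n ≤
      (k + 2 + κ) * R.cost X (n + 1) + ∑ i, R.Theta (R.m (n + 1)) (R.P (n + 1)) (X (n + 1) i) := by
  obtain ⟨i0, hi0⟩ := exists_dmin (X n) (R.σ n)
  -- one page
  have hone : ∀ i, R.Theta (R.m n) (insert n (R.P n)) (X n i) ≤
      R.Theta (R.m (n + 1)) (R.P (n + 1)) (X (n + 1) i) +
        (k + 2 + κ) * dist (X n i) (X (n + 1) i) := by
    intro i
    have h1 := Theta_step hκ hε hε1 R n (X n i)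
    rw [Theta_delete hκ R n (X n i)] at h1
    exact h1.trans (Theta_lip hκ hε R (n + 1) (X n i) (X (n + 1) i))
  have hsum : ∑ i, R.Theta (R.m n) (R.P n) (X n i) + ε / 8 * R.lam n ≤
      ∑ i, R.Theta (R.m n) (insert n (R.P n)) (X n i) +
        (k + 2 + κ) * (ε * dmin (X n) (R.σ n)) := by
    rw [← Finset.add_sum_erase _ _ (Finset.mem_univ i0),
      ← Finset.add_sum_erase Finset.univ
        (fun i => R.Theta (R.m n) (insert n (R.P n)) (X n i)) (Finset.mem_univ i0)]
    have h1 := Theta_insert_gain hκ hε R n (X n i0)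
    rw [hi0] at h1
    have h2 : ∑ i ∈ Finset.univ.erase i0, R.Theta (R.m n) (R.P n) (X n i) ≤
        ∑ i ∈ Finset.univ.erase i0, R.Theta (R.m n) (insert n (R.P n)) (X n i) :=
      Finset.sum_le_sum fun i _ => Theta_insert_ge hε R n (X n i)
    linarith
  have hsum2 : ∑ i, R.Theta (R.m n) (insert n (R.P n)) (X n i) ≤
      ∑ i, R.Theta (R.m (n + 1)) (R.P (n + 1)) (X (n + 1) i) +
        (k + 2 + κ) * move (X n) (X (n + 1)) := by
    unfold move
    rw [Finset.mul_sum, ← Finset.sum_add_distrib]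
    exact Finset.sum_le_sum fun i _ => hone i
  have hcost : R.cost X (n + 1) =
      R.cost X n + (ε * dmin (X n) (R.σ n) + move (X n) (X (n + 1))) := by
    unfold cost
    rw [Finset.sum_range_succ]
  rw [hcost]
  have h3 : (k + 2 + κ) * (R.cost X n + (ε * dmin (X n) (R.σ n) + move (X n) (X (n + 1)))) =
      (k + 2 + κ) * R.cost X n + (k + 2 + κ) * (ε * dmin (X n) (R.σ n)) +
        (k + 2 + κ) * move (X n) (X (n + 1)) := by ring
  rw [h3]
  linarith

theorem potential_zero [NeZero k] (R : Run M k κ ε P0) :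
    -∑ i, ∑ j, dist (P0 i) (P0 j) ≤ ∑ i, R.Theta (R.m 0) (R.P 0) (P0 i) := by
  rw [← Finset.sum_neg_distrib]
  refine Finset.sum_le_sum fun i _ => ?_
  have h1 := psi_lower (R.good 0) (P0 i)
  have h2 := delta_nonneg (R.good 0) (P0 i)
  have h3 : delta (R.m 0) (P0 i) = zeta (R.m 0) (P0 i) - psi (R.m 0) (P0 i) := rfl
  unfold Theta
  rw [R.zero_P, Finset.sum_empty, mul_zero, add_zero]
  linarith

theorem growth [NeZero k] (hκ : 8 ≤ κ) (hε : 0 < ε) (hε1 : ε ≤ 1) (R : Run M k κ ε P0)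
    (X : ℕ → (Fin k → M)) (hX : X 0 = P0) (n : ℕ) :
    R.V n / 8 ≤ (k + 2 + κ) * R.cost X n + k * R.m n (X n) + ∑ i, ∑ j, dist (P0 i) (P0 j) := by
  have h1 : ∀ n, -∑ i, ∑ j, dist (P0 i) (P0 j) + R.V n / 8 ≤
      (k + 2 + κ) * R.cost X n + ∑ i, R.Theta (R.m n) (R.P n) (X n i) := by
    intro n
    induction n with
    | zero =>
      have h2 := potential_zero R
      have h3 : R.V 0 = 0 := by simp [V]
      have h4 : R.cost X 0 = 0 := by simp [cost]
      rw [h3, h4, hX]
      linarith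
    | succ n ih =>
      have h2 := potential_step hκ hε hε1 R X n
      have h3 : R.V (n + 1) = R.V n + ε * R.lam n := by
        unfold V
        rw [Finset.sum_range_succ]
      rw [h3]
      linarith
  have h2 : ∑ i, R.Theta (R.m n) (R.P n) (X n i) ≤ k * R.m n (X n) := by
    calc ∑ i, R.Theta (R.m n) (R.P n) (X n i) ≤ ∑ _i : Fin k, R.m n (X n) := by
          refine Finset.sum_le_sum fun i _ => ?_
          exact (Theta_le_zeta hκ hε R n (X n i)).trans (zeta_le_val (R.good n) (X n) i)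
      _ = k * R.m n (X n) := by
          rw [Finset.sum_const, Finset.card_univ, Fintype.card_fin, nsmul_eq_mul]
  have h3 := h1 n
  linarith

end Run

end H63K
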