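import Pool.Agent.Lib.H63K.Delta

/-! Chunk MASS: section 3 of PROOF.md. `R : Run M k κ ε P0`. -/

namespace H63K

variable {M : Type*} [MetricSpace M] {k : ℕ} {κ ε : ℝ} {P0 : Fin k → M}

namespace Run

theorem lam_nonneg [NeZero k] (R : Run M k κ ε P0) (n : ℕ) : 0 ≤ R.lam n := by
  rw [R.lam_eq]
  exact delta_nonneg (R.good n) _

theorem m_succ_of_hard (R : Run M k κ ε P0) {n : ℕ} (h : R.hard n) :
    R.m (n + 1) = T (R.σ n) (R.m n) := R.m_hard n h

theorem m_succ_of_not_hard (R : Run M k κ ε P0) {n : ℕ} (h : ¬ R.hard n) :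
    R.m (n + 1) = R.m n := R.m_soft n h

theorem mem_G (R : Run M k κ ε P0) {n t : ℕ} : t ∈ R.G n ↔ (t = n ∨ t ∈ R.P n) ∧
    Near κ (R.σ t) (R.lam t) (R.σ n) (R.lam n) := by
  simp only [Run.G, Finset.mem_filter, Finset.mem_insert]

theorem mem_P_succ (R : Run M k κ ε P0) {n t : ℕ} : t ∈ R.P (n + 1) ↔ (t = n ∨ t ∈ R.P n) ∧
    |delta (R.m (n + 1)) (R.σ t) - R.lam t| < R.lam t / 2 := by
  simp only [R.P_succ, Finset.mem_filter, Finset.mem_insert]

theorem P_lt (R : Run M k κ ε P0) {n t : ℕ} (h : t ∈ R.P n) : t < n := by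
  induction n with
  | zero => rw [R.zero_P] at h; exact absurd h (Finset.notMem_empty _)
  | succ n ih =>
    rw [R.mem_P_succ] at h
    rcases h.1 with h1 | h1
    · omega
    · have := ih h1; omega

theorem P_valid (R : Run M k κ ε P0) {n t : ℕ} (h : t ∈ R.P n) :
    |delta (R.m n) (R.σ t) - R.lam t| < R.lam t / 2 := by
  cases n with
  | zero => rw [R.zero_P] at h; exact absurd h (Finset.notMem_empty _)
  | succ n => exact (R.mem_P_succ.1 h).2

/-- pending requests are only deleted, induction on `n` -/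
theorem P_anti (R : Run M k κ ε P0) {s n t : ℕ} (h : t ∈ R.P n) (hs : s ≤ n) (ht : t < s) :
    t ∈ R.P s := by
  induction n with
  | zero =>
    have : s = 0 := by omega
    rw [this]; exact h
  | succ n ih =>
    rcases Nat.lt_or_ge n s with h1 | h1
    · have : s = n + 1 := by omega
      rw [this]; exact h
    · rw [R.mem_P_succ] at h
      rcases h.1 with h2 | h2
      · omega
      · exact ih h2 h1

/-- `n` pending or new at time `s` (for `s ≥ t`) if pending later -/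
theorem mem_of_mem_P (R : Run M k κ ε P0) {s n t : ℕ} (h : t ∈ R.P n) (hs : s < n) (ht : t ≤ s) :
    t = s ∨ t ∈ R.P s := by
  rcases Nat.lt_or_ge t s with h1 | h1
  · exact Or.inr (R.P_anti h hs.le h1)
  · exact Or.inl (by omega)

theorem G_le (R : Run M k κ ε P0) {n t : ℕ} (h : t ∈ R.G n) : t ≤ n := by
  rcases (R.mem_G.1 h).1 with h1 | h1
  · omega
  · exact (R.P_lt h1).le

/-- (3.1) -/
theorem not_mem_P_succ [NeZero k] (hκ : 8 ≤ κ) (R : Run M k κ ε P0) {n t : ℕ} (hn : R.hard n)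
    (ht : t ∈ R.G n) : t ∉ R.P (n + 1) := by
  intro h
  have h1 := R.P_valid h
  rw [R.m_succ_of_hard hn] at h1
  have h2 := delta_T (R.good n) (R.σ n) (R.σ t)
  obtain ⟨-, h3, h4, h5⟩ := R.mem_G.1 ht
  have h6 := (abs_lt.1 h1).1
  have h7 : 8 * dist (R.σ t) (R.σ n) ≤ κ * dist (R.σ t) (R.σ n) :=
    mul_le_mul_of_nonneg_right hκ dist_nonneg
  have h8 := R.lam_nonneg t
  nlinarith

theorem not_mem_P_of_hard [NeZero k] (hκ : 8 ≤ κ) (R : Run M k κ ε P0) {n t s : ℕ}
    (hn : R.hard n) (ht : t ∈ R.G n) (hs : n < s) : t ∉ R.P s := by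
  intro h
  have h1 := R.G_le ht
  exact R.not_mem_P_succ hκ hn ht (R.P_anti h (by omega) (by omega))

/-- (3.2). Proof: if `U` is nonempty let `s = U.max'`. Every `t ∈ U` satisfies `t = s ∨ t ∈ P s`
(`mem_of_mem_P`) and `Near κ (σ t) (lam t) (σ s) (lam s)` by the triangle inequality, so
`U ⊆ G s`. If `1 < ε * card U` then `hard s`, so `s ∉ P n` by `not_mem_P_of_hard`,
a contradiction (`s < n` by `P_lt`). -/
theorem mass_le_one [NeZero k] (hκ : 8 ≤ κ) (hε : 0 < ε) (R : Run M k κ ε P0) (n : ℕ) (u : M)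
    (z : ℝ) (U : Finset ℕ)
    (hU : ∀ t ∈ U, t ∈ R.P n ∧ |z - R.lam t| + κ * dist u (R.σ t) < R.lam t / 2) :
    ε * (U.card : ℝ) ≤ 1 := by
  rcases U.eq_empty_or_nonempty with h0 | h0
  · rw [h0]; simp
  by_contra hcon
  rw [not_le] at hcon
  set s := U.max' h0 with hs
  have hsU : s ∈ U := U.max'_mem h0
  obtain ⟨hsP, hsv⟩ := hU s hsU
  have hsn : s < n := R.P_lt hsP
  have hsub : U ⊆ R.G s := by
    intro t ht
    obtain ⟨htP, htv⟩ := hU t ht
    have hts : t ≤ s := U.le_max' t ht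
    rw [R.mem_G]
    refine ⟨R.mem_of_mem_P htP hsn hts, ?_, ?_, ?_⟩
    · have h1 : dist (R.σ t) (R.σ s) ≤ dist u (R.σ t) + dist u (R.σ s) := by
        have := dist_triangle (R.σ t) u (R.σ s)
        rw [dist_comm (R.σ t) u] at this
        exact this
      have h2 := abs_nonneg (z - R.lam t)
      have h3 := abs_nonneg (z - R.lam s)
      have h4 : κ * dist (R.σ t) (R.σ s) ≤ κ * dist u (R.σ t) + κ * dist u (R.σ s) := by
        have := mul_le_mul_of_nonneg_left h1 (by linarith : (0:ℝ) ≤ κ)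
        linarith
      linarith
    · have h2 : 0 ≤ κ * dist u (R.σ t) := mul_nonneg (by linarith) dist_nonneg
      have h3 : 0 ≤ κ * dist u (R.σ s) := mul_nonneg (by linarith) dist_nonneg
      have h4 := neg_abs_le (z - R.lam t)
      have h5 := le_abs_self (z - R.lam s)
      linarith
    · have h2 : 0 ≤ κ * dist u (R.σ t) := mul_nonneg (by linarith) dist_nonneg
      have h3 : 0 ≤ κ * dist u (R.σ s) := mul_nonneg (by linarith) dist_nonneg
      have h4 := neg_abs_le (z - R.lam s)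
      have h5 := le_abs_self (z - R.lam t)
      linarith
  have hhard : R.hard s := by
    unfold Run.hard
    have h1 : (U.card : ℝ) ≤ ((R.G s).card : ℝ) := by
      exact_mod_cast Finset.card_le_card hsub
    have h2 := mul_le_mul_of_nonneg_left h1 hε.le
    linarith
  exact R.not_mem_P_of_hard hκ hhard (hsub hsU) hsn hsP

theorem mass_le_two [NeZero k] (hκ : 8 ≤ κ) (hε : 0 < ε) (hε1 : ε ≤ 1) (R : Run M k κ ε P0)
    (n : ℕ) (u : M) (z : ℝ) (U : Finset ℕ)
    (hU : ∀ t ∈ U, t ∈ insert n (R.P n) ∧ |z - R.lam t| + κ * dist u (R.σ t) < R.lam t / 2) :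
    ε * (U.card : ℝ) ≤ 2 := by
  have h1 : ε * (((U.erase n).card : ℕ) : ℝ) ≤ 1 := by
    refine R.mass_le_one hκ hε n u z (U.erase n) ?_
    intro t ht
    obtain ⟨h2, h3⟩ := Finset.mem_erase.1 ht
    obtain ⟨h4, h5⟩ := hU t h3
    refine ⟨?_, h5⟩
    rcases Finset.mem_insert.1 h4 with h6 | h6
    · exact absurd h6 h2
    · exact h6
  have h2 : (U.card : ℝ) ≤ ((U.erase n).card : ℝ) + 1 := by
    have := Finset.pred_card_le_card_erase (s := U) (a := n)
    have h5 : U.card ≤ (U.erase n).card + 1 := by omega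
    exact_mod_cast h5
  have h3 := mul_le_mul_of_nonneg_left h2 hε.le
  linarith

/-- (3.3) -/
theorem G_disjoint [NeZero k] (hκ : 8 ≤ κ) (R : Run M k κ ε P0) {τ τ' : ℕ} (h : R.hard τ)
    (h' : R.hard τ') (hne : τ ≠ τ') : Disjoint (R.G τ) (R.G τ') := by
  have key : ∀ a b : ℕ, a < b → R.hard a → Disjoint (R.G a) (R.G b) := by
    intro a b hab ha
    rw [Finset.disjoint_left]
    intro t hta htb
    have h1 := R.G_le hta
    rcases (R.mem_G.1 htb).1 with h2 | h2
    · omega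
    · exact R.not_mem_P_of_hard hκ ha hta hab h2
  rcases Nat.lt_or_gt_of_ne hne with h1 | h1
  · exact key _ _ h1 h
  · exact (key _ _ h1 h').symm

theorem mem_hards (R : Run M k κ ε P0) {n τ : ℕ} : τ ∈ R.hards n ↔ τ < n ∧ R.hard τ := by
  simp only [Run.hards, Finset.mem_filter, Finset.mem_range]

theorem sum_G_le [NeZero k] (hκ : 8 ≤ κ) (R : Run M k κ ε P0) (f : ℕ → ℝ) (hf : ∀ t, 0 ≤ f t)
    (n : ℕ) : ∑ τ ∈ R.hards n, ∑ t ∈ R.G τ, f t ≤ ∑ t ∈ Finset.range n, f t := by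
  classical
  have hdis : Set.PairwiseDisjoint (↑(R.hards n) : Set ℕ) (fun τ => R.G τ) := by
    intro a ha b hb hab
    exact R.G_disjoint hκ (R.mem_hards.1 ha).2 (R.mem_hards.1 hb).2 hab
  rw [← Finset.sum_biUnion hdis]
  refine Finset.sum_le_sum_of_subset_of_nonneg ?_ (fun t _ _ => hf t)
  intro t ht
  rw [Finset.mem_biUnion] at ht
  obtain ⟨τ, hτ, htG⟩ := ht
  rw [Finset.mem_range]
  exact lt_of_le_of_lt (R.G_le htG) (R.mem_hards.1 hτ).1

theorem sum_hard_lam [NeZero k] (hκ : 8 ≤ κ) (hε : 0 < ε) (R : Run M k κ ε P0) (n : ℕ) :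
    ∑ τ ∈ R.hards n, R.lam τ ≤ 3 * R.V n := by
  have h1 : ∑ τ ∈ R.hards n, R.lam τ ≤
      ∑ τ ∈ R.hards n, ∑ t ∈ R.G τ, 3 * (ε * R.lam t) := by
    refine Finset.sum_le_sum ?_
    intro τ hτ
    have hh := (R.mem_hards.1 hτ).2
    have h2 : ∑ t ∈ R.G τ, ε * R.lam τ ≤ ∑ t ∈ R.G τ, 3 * (ε * R.lam t) := by
      refine Finset.sum_le_sum ?_
      intro t ht
      have h3 := (R.mem_G.1 ht).2.2.2
      have h4 := mul_le_mul_of_nonneg_left h3.le hε.le
      linarith
    have h5 : ∑ t ∈ R.G τ, ε * R.lam τ = (ε * ((R.G τ).card : ℝ)) * R.lam τ := by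
      rw [Finset.sum_const, nsmul_eq_mul]
      ring
    have h6 : R.lam τ ≤ (ε * ((R.G τ).card : ℝ)) * R.lam τ :=
      le_mul_of_one_le_left (R.lam_nonneg τ) hh
    linarith
  have h2 := R.sum_G_le hκ (fun t => 3 * (ε * R.lam t))
    (fun t => mul_nonneg (by norm_num) (mul_nonneg hε.le (R.lam_nonneg t))) n
  have h3 : ∑ t ∈ Finset.range n, 3 * (ε * R.lam t) = 3 * R.V n := by
    unfold Run.V
    rw [Finset.mul_sum]
  linarith

end Run

end H63K
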