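import Pool.Agent.Lib.H63K.QC

/-! Chunk PSI: elementary facts on `psi`, `zeta`. (All infima are bounded below by `Good.lb`.) -/

namespace H63K

variable {M : Type*} [MetricSpace M] {k : ℕ} {P0 : Fin k → M} {m m' : (Fin k → M) → ℝ}

theorem gval_lower (hm : Good P0 m) (u : M) (X : Fin k → M) :
    -∑ j, dist u (P0 j) ≤ gval m u X := by
  have := hm.lb X u
  unfold gval
  linarith

theorem PSI_bdd (hm : Good P0 m) (u : M) : BddBelow (Set.range fun X => gval m u X) :=
  ⟨-∑ j, dist u (P0 j), by
    rintro _ ⟨X, rfl⟩
    exact gval_lower hm u X⟩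

theorem PSI_bdd' (hm : Good P0 m) (u : M) :
    BddBelow (Set.range fun X : {X : Fin k → M // ∃ j, X j = u} => gval m u X) :=
  ⟨-∑ j, dist u (P0 j), by
    rintro _ ⟨X, rfl⟩
    exact gval_lower hm u X⟩

theorem psi_le (hm : Good P0 m) (u : M) (X : Fin k → M) : psi m u ≤ gval m u X :=
  ciInf_le (PSI_bdd hm u) X

theorem le_psi {c : ℝ} {u : M} (h : ∀ X, c ≤ gval m u X) : c ≤ psi m u := by
  haveI : Nonempty (Fin k → M) := ⟨fun _ => u⟩
  exact le_ciInf h

theorem zeta_le (hm : Good P0 m) (u : M) (X : Fin k → M) (j : Fin k) (h : X j = u) :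
    zeta m u ≤ gval m u X :=
  ciInf_le (PSI_bdd' hm u) (⟨X, j, h⟩ : {X : Fin k → M // ∃ j, X j = u})

theorem le_zeta [NeZero k] {c : ℝ} {u : M} (h : ∀ X j, X j = u → c ≤ gval m u X) :
    c ≤ zeta m u := by
  haveI : Nonempty {X : Fin k → M // ∃ j, X j = u} := ⟨⟨fun _ => u, 0, rfl⟩⟩
  exact le_ciInf fun X => by
    obtain ⟨j, hj⟩ := X.2
    exact h X.1 j hj

theorem psi_lower (hm : Good P0 m) (u : M) : -∑ j, dist u (P0 j) ≤ psi m u :=
  le_psi fun X => gval_lower hm u X

theorem delta_nonneg [NeZero k] (hm : Good P0 m) (u : M) : 0 ≤ delta m u := by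
  have : psi m u ≤ zeta m u := le_zeta fun X _ _ => psi_le hm u X
  unfold delta
  linarith

theorem psi_mono (hm : Good P0 m) (h : ∀ X, m X ≤ m' X) (u : M) : psi m u ≤ psi m' u := by
  refine le_psi fun X => ?_
  have h1 := psi_le hm u X
  have h2 := h X
  unfold gval at *
  linarith

theorem zeta_mono [NeZero k] (hm : Good P0 m) (h : ∀ X, m X ≤ m' X) (u : M) :
    zeta m u ≤ zeta m' u := by
  refine le_zeta fun X j hj => ?_
  have h1 := zeta_le hm u X j hj
  have h2 := h X
  unfold gval at *
  linarith

theorem psi_lip (hm : Good P0 m) (u v : M) : psi m u ≤ psi m v + k * dist u v := by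
  have h : psi m u - k * dist u v ≤ psi m v := by
    refine le_psi fun X => ?_
    have h1 := psi_le hm u X
    have h2 : ∑ j, dist v (X j) ≤ ∑ j, dist u (X j) + k * dist u v := by
      have h3 : ∀ j ∈ Finset.univ, dist v (X j) ≤ dist u (X j) + dist u v := by
        intro j _
        have := dist_triangle v u (X j)
        rw [dist_comm v u] at this
        linarith
      have h4 := Finset.sum_le_sum h3
      rw [Finset.sum_add_distrib, Finset.sum_const, Finset.card_univ, Fintype.card_fin,
        nsmul_eq_mul] at h4
      exact h4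
    unfold gval at *
    linarith
  linarith

/-- for `X` with `X j = v` use `X[j ↦ u]`: `m` rises by at most `d(u,v)`, and
`∑_{l ≠ j} d(v, X_l) ≤ ∑_{l ≠ j} d(u, X_l) + (k-1) d(u,v)` -/
theorem zeta_lip [NeZero k] (hm : Good P0 m) (u v : M) : zeta m u ≤ zeta m v + k * dist u v := by
  classical
  have h : zeta m u - k * dist u v ≤ zeta m v := by
    refine le_zeta fun X j hj => ?_
    have h1 := zeta_le hm u (Function.update X j u) j (Function.update_self _ _ _)
    have hm1 := hm.lip (Function.update X j u) X
    have hmv : move (Function.update X j u) X = dist u v := by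
      unfold move
      rw [Finset.sum_eq_single j]
      · rw [Function.update_self, hj]
      · intro b _ hb
        rw [Function.update_of_ne hb, dist_self]
      · intro h
        exact absurd (Finset.mem_univ j) h
    have h2 : ∑ l, dist v (X l) + dist u v ≤
        ∑ l, dist u (Function.update X j u l) + k * dist u v := by
      have h3 : ∀ l ∈ Finset.univ, dist v (X l) + (if l = j then dist u v else 0) ≤
          dist u (Function.update X j u l) + dist u v := by
        intro l _
        by_cases hl : l = j
        · subst hl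
          rw [Function.update_self, hj, dist_self, dist_self, if_pos rfl]
        · rw [Function.update_of_ne hl, if_neg hl]
          have := dist_triangle v u (X l)
          rw [dist_comm v u] at this
          linarith
      have h4 := Finset.sum_le_sum h3
      rw [Finset.sum_add_distrib, Finset.sum_add_distrib, Finset.sum_const, Finset.card_univ,
        Fintype.card_fin, nsmul_eq_mul, Finset.sum_ite_eq' Finset.univ j,
        if_pos (Finset.mem_univ j)] at h4
      exact h4
    unfold gval at *
    linarith
  linarith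

theorem zeta_le_val (hm : Good P0 m) (X : Fin k → M) (i : Fin k) : zeta m (X i) ≤ m X := by
  have h1 := zeta_le hm (X i) X i rfl
  have h2 : 0 ≤ ∑ j, dist (X i) (X j) := Finset.sum_nonneg fun j _ => dist_nonneg
  unfold gval at h1
  linarith

end H63K
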