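import Pool.Agent.Lib.H63K.Basic

/-! Chunk QC: the request update preserves quasi-convexity (Koutsoupias-Papadimitriou). -/

namespace H63K

variable {M : Type*} [MetricSpace M] {k : ℕ} {P0 : Fin k → M} {m : (Fin k → M) → ℝ}

/-- If `A a = B b` the permutation of the quasi-convexity inequality may be chosen with
`π a = b`. Proof: let `π` be the permutation of `qc`, `a' = π⁻¹ b`, and if `a ≠ a'` put
`π' = π * swap a a'` (so `π' a = b`, `π' a' = π a`). Let `I` be given. Apply `qc` of `π` with
`I'` = `I` with both `a, a'` inserted if `a' ∈ I`, with both erased if `a' ∉ I`. As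
`A a = B b =: r`, the two configurations for `(π', I)` are those for `(π, I')` up to exchanging
the coordinates `a` and `a'` (check the four cases), so `symm` (for `swap a a'`) applies.
In detail, `x = A a'`, `y = B (π a)`. Coordinates `(a, a')` for `(π', I)`: first configuration
`(r, y)` if `a' ∈ I` and `(r, x)` otherwise, second `(r, x)` if `a' ∈ I` and `(r, y)` otherwise.
For `(π, I')`: `a' ∈ I`: first `(y, r)`, second `(r, x)`; `a' ∉ I`: first `(r, x)`,
second `(y, r)`. -/
theorem qc_fix (hm : Good P0 m) (A B : Fin k → M) (a b : Fin k) (hab : A a = B b) :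
    ∃ π : Equiv.Perm (Fin k), π a = b ∧ ∀ I : Finset (Fin k),
      m (fun i => if i ∈ I then B (π i) else A i) + m (fun i => if i ∈ I then A i else B (π i))
        ≤ m A + m B := by
  obtain ⟨π, hπ⟩ := hm.qc A B
  by_cases haa : π a = b
  · exact ⟨π, haa, hπ⟩
  obtain ⟨a', ha'⟩ : ∃ a', π a' = b := π.surjective b
  have hne : a ≠ a' := fun h => haa (by rw [h, ha'])
  refine ⟨π * Equiv.swap a a', by simp [ha'], fun I => ?_⟩
  have hs : ∀ i, i ≠ a → i ≠ a' → Equiv.swap a a' i = i :=
    fun i h1 h2 => Equiv.swap_apply_of_ne_of_ne h1 h2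
  by_cases hI : a' ∈ I
  · have h := hπ (insert a I)
    have e1 : (fun i => if i ∈ insert a I then B (π i) else A i) =
        (fun i => if i ∈ I then B ((π * Equiv.swap a a') i) else A i) ∘ Equiv.swap a a' := by
      funext i
      simp only [Function.comp, Equiv.Perm.mul_apply, Equiv.swap_apply_self]
      rcases eq_or_ne i a with rfl | h1
      · simp [hI]
      · rcases eq_or_ne i a' with rfl | h2
        · rw [Equiv.swap_apply_right]
          by_cases h3 : a ∈ I
          · simp [hI, h3]
          · simp [hI, h3, ha', hab]
        · rw [hs i h1 h2]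
          simp [h1]
    have e2 : (fun i => if i ∈ insert a I then A i else B (π i)) =
        (fun i => if i ∈ I then A i else B ((π * Equiv.swap a a') i)) := by
      funext i
      simp only [Equiv.Perm.mul_apply]
      rcases eq_or_ne i a with rfl | h1
      · by_cases h3 : i ∈ I
        · simp [h3]
        · simp [h3, ha', hab]
      · rcases eq_or_ne i a' with rfl | h2
        · simp [hI]
        · rw [hs i h1 h2]
          simp [h1]
    rw [e1, e2, hm.symm] at h
    exact h
  · have h := hπ (I.erase a)
    have e1 : (fun i => if i ∈ I.erase a then B (π i) else A i) =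
        (fun i => if i ∈ I then B ((π * Equiv.swap a a') i) else A i) := by
      funext i
      simp only [Equiv.Perm.mul_apply]
      rcases eq_or_ne i a with rfl | h1
      · by_cases h3 : i ∈ I
        · simp [h3, ha', hab]
        · simp [h3]
      · rcases eq_or_ne i a' with rfl | h2
        · simp [hI]
        · rw [hs i h1 h2]
          simp [h1]
    have e2 : (fun i => if i ∈ I.erase a then A i else B (π i)) =
        (fun i => if i ∈ I then A i else B ((π * Equiv.swap a a') i)) ∘ Equiv.swap a a' := by
      funext i
      simp only [Function.comp, Equiv.Perm.mul_apply, Equiv.swap_apply_self]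
      rcases eq_or_ne i a with rfl | h1
      · simp [hI]
      · rcases eq_or_ne i a' with rfl | h2
        · rw [Equiv.swap_apply_right]
          by_cases h3 : a ∈ I
          · simp [hI, h3, ha', hab]
          · simp [hI, h3]
        · rw [hs i h1 h2]
          simp [h1]
    rw [e1, e2, hm.symm] at h
    exact h

/-- Proof: `T r m A = m (A[a ↦ r]) + d(A_a, r)`, `T r m B = m (B[b ↦ r]) + d(B_b, r)`
(`exists_T`). Take `π` from `qc_fix` for `A[a ↦ r]`, `B[b ↦ r]`, `a`, `b`. For a set `I` the
configurations `Y, Z` (mixtures of `A` and `B ∘ π`) satisfy: `Y[a ↦ r]`, `Z[a ↦ r]` are the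
mixtures of `A[a ↦ r]` and `B[b ↦ r] ∘ π`, and `{Y a, Z a} = {A a, B b}`. Use `T_le` at `a`. -/
theorem T_qc [NeZero k] (hm : Good P0 m) (r : M) (A B : Fin k → M) :
    ∃ π : Equiv.Perm (Fin k), ∀ I : Finset (Fin k),
      T r m (fun i => if i ∈ I then B (π i) else A i) +
        T r m (fun i => if i ∈ I then A i else B (π i)) ≤ T r m A + T r m B := by
  obtain ⟨a, ha⟩ := exists_T r m A
  obtain ⟨b, hb⟩ := exists_T r m B
  obtain ⟨π, hπ, h⟩ := qc_fix hm (Function.update A a r) (Function.update B b r) a b (by simp)
  refine ⟨π, fun I => ?_⟩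
  have h1 := h I
  have hne : ∀ i, i ≠ a → π i ≠ b := fun i hi h2 => hi (π.injective (by rw [h2, hπ]))
  have e1 : (fun i => if i ∈ I then Function.update B b r (π i) else Function.update A a r i) =
      Function.update (fun i => if i ∈ I then B (π i) else A i) a r := by
    funext i
    rcases eq_or_ne i a with rfl | hi
    · simp [hπ]
    · simp [hi, hne i hi]
  have e2 : (fun i => if i ∈ I then Function.update A a r i else Function.update B b r (π i)) =
      Function.update (fun i => if i ∈ I then A i else B (π i)) a r := by
    funext i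
    rcases eq_or_ne i a with rfl | hi
    · simp [hπ]
    · simp [hi, hne i hi]
  rw [e1, e2] at h1
  have h2 := T_le r m (fun i => if i ∈ I then B (π i) else A i) a
  have h3 := T_le r m (fun i => if i ∈ I then A i else B (π i)) a
  rw [ha, hb]
  by_cases haI : a ∈ I
  · simp only [haI, if_true, hπ] at h2 h3
    linarith
  · simp only [haI, if_false, hπ] at h2 h3
    linarith

theorem Good.T [NeZero k] (hm : Good P0 m) (r : M) : Good P0 (T r m) where
  symm := T_symm hm.symm r
  lip := T_lip hm.lip r
  qc := T_qc hm r
  lb := fun X u => (hm.lb X u).trans (add_le_add (le_T hm.lip r X) le_rfl)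
  nonneg := fun X => (hm.nonneg X).trans (le_T hm.lip r X)

/-- exchange property: `qc` with `A = C`, `B = X`, `I = {j}`; `i = π j`; the second configuration
is `(X[π j ↦ C j]) ∘ π`. -/
theorem Good.exchange (hm : Good P0 m) (C X : Fin k → M) (j : Fin k) :
    ∃ i, m (Function.update C j (X i)) + m (Function.update X i (C j)) ≤ m C + m X := by
  obtain ⟨π, hπ⟩ := hm.qc C X
  refine ⟨π j, ?_⟩
  have h := hπ {j}
  have e1 : (fun i => if i ∈ ({j} : Finset (Fin k)) then X (π i) else C i) =
      Function.update C j (X (π j)) := by
    funext i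
    rcases eq_or_ne i j with rfl | hi
    · simp
    · simp [hi]
  have e2 : (fun i => if i ∈ ({j} : Finset (Fin k)) then C i else X (π i)) =
      (Function.update X (π j) (C j)) ∘ π := by
    rw [← update_comp_perm]
    funext i
    rcases eq_or_ne i j with rfl | hi
    · simp
    · simp [hi]
  rw [e1, e2, hm.symm] at h
  exact h

end H63K
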