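import Pool.Agent.Lib.H63K.Mass

/-! Chunk THE: section 5 of PROOF.md, the properties of `Theta`. -/

namespace H63K

variable {M : Type*} [MetricSpace M] {k : ℕ} {κ ε : ℝ} {P0 : Fin k → M}

namespace Run

theorem bump_nonneg (R : Run M k κ ε P0) (t : ℕ) (d : ℝ) (u : M) : 0 ≤ R.bump t d u :=
  le_max_left _ _

/-- `bump` is 1-Lipschitz in `d` and `κ`-Lipschitz in `u`; moreover it only decreases if it was
positive, that is `|d - lam t| + κ dist u (σ t) < lam t / 2`. -/
theorem bump_sub_le (hκ : 8 ≤ κ) (R : Run M k κ ε P0) (t : ℕ) (d d' : ℝ) (u u' : M) :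
    R.bump t d u - R.bump t d' u' ≤ if |d - R.lam t| + κ * dist u (R.σ t) < R.lam t / 2 then
      |d - d'| + κ * dist u u' else 0 := by
  split_ifs with h
  · have h1 : R.bump t d u = R.lam t / 2 - |d - R.lam t| - κ * dist u (R.σ t) := by
      unfold bump
      exact max_eq_right (by linarith)
    have h2 : R.lam t / 2 - |d' - R.lam t| - κ * dist u' (R.σ t) ≤ R.bump t d' u' :=
      le_max_right _ _
    have h3 : |d' - R.lam t| ≤ |d - d'| + |d - R.lam t| := by
      have := abs_sub_le d' d (R.lam t)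
      rw [abs_sub_comm d' d] at this
      exact this
    have h4 : dist u' (R.σ t) ≤ dist u u' + dist u (R.σ t) := by
      have := dist_triangle u' u (R.σ t)
      rw [dist_comm u' u] at this
      exact this
    have h5 : κ * dist u' (R.σ t) ≤ κ * (dist u u' + dist u (R.σ t)) :=
      mul_le_mul_of_nonneg_left h4 (by linarith)
    rw [h1]
    linarith
  · have h1 : R.bump t d u = 0 := by
      unfold bump
      exact max_eq_left (by linarith)
    have h2 := R.bump_nonneg t d' u'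
    rw [h1]
    linarith

open Classical in
theorem THE_sum (hκ : 8 ≤ κ) (hε : 0 < ε) (R : Run M k κ ε P0) (Q : Finset ℕ) (B : ℝ)
    (d d' : ℝ) (u u' : M)
    (hB : ε * ((Q.filter (fun t => |d - R.lam t| + κ * dist u (R.σ t) < R.lam t / 2)).card : ℝ)
      ≤ B) :
    ε * ∑ t ∈ Q, R.bump t d u ≤
      ε * ∑ t ∈ Q, R.bump t d' u' + B * (|d - d'| + κ * dist u u') := by
  have h1 : ∑ t ∈ Q, (R.bump t d u - R.bump t d' u') ≤
      ∑ t ∈ Q, (if |d - R.lam t| + κ * dist u (R.σ t) < R.lam t / 2 then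
        |d - d'| + κ * dist u u' else 0) :=
    Finset.sum_le_sum fun t _ => R.bump_sub_le hκ t d d' u u'
  rw [Finset.sum_sub_distrib, ← Finset.sum_filter, Finset.sum_const, nsmul_eq_mul] at h1
  have hc : 0 ≤ |d - d'| + κ * dist u u' := by
    have := dist_nonneg (x := u) (y := u')
    positivity
  have h2 := mul_le_mul_of_nonneg_left h1 hε.le
  have h3 := mul_le_mul_of_nonneg_right hB hc
  nlinarith

/-- Proof: `bump_sub_le` and `mass_le_one` for the filtered set. -/
theorem sum_bump_sub_le_one [NeZero k] (hκ : 8 ≤ κ) (hε : 0 < ε) (R : Run M k κ ε P0)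
    (n : ℕ) (d d' : ℝ) (u u' : M) :
    ε * ∑ t ∈ R.P n, R.bump t d u ≤
      ε * ∑ t ∈ R.P n, R.bump t d' u' + (|d - d'| + κ * dist u u') := by
  classical
  have h := THE_sum hκ hε R (R.P n) 1 d d' u u'
    (mass_le_one hκ hε R n u d _ (fun t ht => by
      rw [Finset.mem_filter] at ht
      exact ht))
  linarith

theorem sum_bump_sub_le_two [NeZero k] (hκ : 8 ≤ κ) (hε : 0 < ε) (hε1 : ε ≤ 1)
    (R : Run M k κ ε P0) (n : ℕ) (d d' : ℝ) (u u' : M) :
    ε * ∑ t ∈ insert n (R.P n), R.bump t d u ≤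
      ε * ∑ t ∈ insert n (R.P n), R.bump t d' u' + 2 * (|d - d'| + κ * dist u u') := by
  classical
  exact THE_sum hκ hε R (insert n (R.P n)) 2 d d' u u'
    (mass_le_two hκ hε hε1 R n u d _ (fun t ht => by
      rw [Finset.mem_filter] at ht
      exact ht))

/-- each positive bump is at most `d / 2` -/
theorem sum_bump_le [NeZero k] (hκ : 8 ≤ κ) (hε : 0 < ε) (R : Run M k κ ε P0)
    (n : ℕ) (d : ℝ) (hd : 0 ≤ d) (u : M) : ε * ∑ t ∈ R.P n, R.bump t d u ≤ d / 2 := by
  classical
  have h1 : ∑ t ∈ R.P n, R.bump t d u ≤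
      ∑ t ∈ R.P n, (if |d - R.lam t| + κ * dist u (R.σ t) < R.lam t / 2 then d / 2 else 0) := by
    refine Finset.sum_le_sum fun t _ => ?_
    have hk : 0 ≤ κ * dist u (R.σ t) := mul_nonneg (by linarith) dist_nonneg
    split_ifs with h
    · have h1 : R.bump t d u = R.lam t / 2 - |d - R.lam t| - κ * dist u (R.σ t) := by
        unfold bump
        exact max_eq_right (by linarith)
      rw [h1]
      rcases abs_cases (d - R.lam t) with h2 | h2 <;> linarith [h2.1, h2.2]
    · have h1 : R.bump t d u = 0 := by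
        unfold bump
        exact max_eq_left (by linarith)
      rw [h1]
  rw [← Finset.sum_filter, Finset.sum_const, nsmul_eq_mul] at h1
  have h2 := mass_le_one hκ hε R n u d
    ((R.P n).filter (fun t => |d - R.lam t| + κ * dist u (R.σ t) < R.lam t / 2))
    (fun t ht => by
      rw [Finset.mem_filter] at ht
      exact ht)
  have h3 := mul_le_mul_of_nonneg_left h1 hε.le
  have h4 := mul_le_mul_of_nonneg_right h2 (by linarith : 0 ≤ d / 2)
  nlinarith

theorem THE_delta_abs [NeZero k] (R : Run M k κ ε P0) (n : ℕ) (u v : M) :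
    |delta (R.m n) u - delta (R.m n) v| ≤ 2 * dist u v := by
  have h1 := delta_lip (R.good n) u v
  have h2 := delta_lip (R.good n) v u
  rw [dist_comm v u] at h2
  rw [abs_le]
  constructor <;> linarith

/-- (d) -/
theorem Theta_lip [NeZero k] (hκ : 8 ≤ κ) (hε : 0 < ε) (R : Run M k κ ε P0) (n : ℕ) (u v : M) :
    R.Theta (R.m n) (R.P n) u ≤ R.Theta (R.m n) (R.P n) v + (k + 2 + κ) * dist u v := by
  have h1 := psi_lip (R.good n) u v
  have h2 := zeta_lip (R.good n) u v
  have h3 := sum_bump_sub_le_one hκ hε R n (delta (R.m n) u) (delta (R.m n) v) u v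
  have h4 := THE_delta_abs R n u v
  have hd := dist_nonneg (x := u) (y := v)
  have hk : (0 : ℝ) ≤ k := Nat.cast_nonneg k
  unfold Theta
  have h5 : 0 ≤ κ * dist u v := mul_nonneg (by linarith) hd
  nlinarith

theorem Theta_le_zeta [NeZero k] (hκ : 8 ≤ κ) (hε : 0 < ε) (R : Run M k κ ε P0) (n : ℕ)
    (x : M) : R.Theta (R.m n) (R.P n) x ≤ zeta (R.m n) x := by
  have h1 := delta_nonneg (R.good n) x
  have h2 := sum_bump_le hκ hε R n _ h1 x
  have h3 : delta (R.m n) x = zeta (R.m n) x - psi (R.m n) x := rfl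
  unfold Theta
  linarith

/-- adding `n` never decreases `Theta` -/
theorem Theta_insert_ge (hε : 0 < ε) (R : Run M k κ ε P0) (n : ℕ) (u : M) :
    R.Theta (R.m n) (R.P n) u ≤ R.Theta (R.m n) (insert n (R.P n)) u := by
  unfold Theta
  have h1 : ∑ t ∈ R.P n, R.bump t (delta (R.m n) u) u ≤
      ∑ t ∈ insert n (R.P n), R.bump t (delta (R.m n) u) u :=
    Finset.sum_le_sum_of_subset_of_nonneg (Finset.subset_insert _ _)
      fun t _ _ => R.bump_nonneg t _ u
  have h2 := mul_le_mul_of_nonneg_left h1 (by linarith : 0 ≤ ε / 4)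
  linarith

/-- (a) -/
theorem Theta_insert_gain [NeZero k] (hκ : 8 ≤ κ) (hε : 0 < ε) (R : Run M k κ ε P0) (n : ℕ)
    (u : M) : R.Theta (R.m n) (R.P n) u + ε / 8 * R.lam n ≤
      R.Theta (R.m n) (insert n (R.P n)) u + (k + 2 + κ) * (ε * dist u (R.σ n)) := by
  have hn : n ∉ R.P n := fun h => lt_irrefl _ (P_lt R h)
  unfold Theta
  rw [Finset.sum_insert hn]
  have h1 : R.lam n / 2 - |delta (R.m n) u - R.lam n| - κ * dist u (R.σ n) ≤
      R.bump n (delta (R.m n) u) u := le_max_right _ _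
  have h2 := THE_delta_abs R n u (R.σ n)
  rw [← R.lam_eq n] at h2
  have hd := dist_nonneg (x := u) (y := R.σ n)
  have hk : (0 : ℝ) ≤ k := Nat.cast_nonneg k
  have h3 : R.lam n / 2 - (2 + κ) * dist u (R.σ n) ≤ R.bump n (delta (R.m n) u) u := by
    linarith
  have h4 := mul_le_mul_of_nonneg_left h3 (by linarith : 0 ≤ ε / 4)
  have h5 : 0 ≤ ε * dist u (R.σ n) := mul_nonneg hε.le hd
  have h6 : 0 ≤ (k : ℝ) * (ε * dist u (R.σ n)) := mul_nonneg hk h5
  have h7 : 0 ≤ (2 + κ) * (ε * dist u (R.σ n)) := mul_nonneg (by linarith) h5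
  nlinarith

/-- (b), both for hard and for soft steps -/
theorem Theta_step [NeZero k] (hκ : 8 ≤ κ) (hε : 0 < ε) (hε1 : ε ≤ 1) (R : Run M k κ ε P0)
    (n : ℕ) (u : M) : R.Theta (R.m n) (insert n (R.P n)) u ≤
      R.Theta (R.m (n + 1)) (insert n (R.P n)) u := by
  have hmono : ∀ X, R.m n X ≤ R.m (n + 1) X := by
    intro X
    by_cases h : R.hard n
    · rw [m_succ_of_hard R h]
      exact le_T (R.good n).lip _ _
    · rw [m_succ_of_not_hard R h]
  have h1 := psi_mono (R.good n) hmono u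
  have h2 := zeta_mono (R.good n) hmono u
  have h3 := sum_bump_sub_le_two hκ hε hε1 R n (delta (R.m n) u) (delta (R.m (n + 1)) u) u u
  rw [dist_self, mul_zero, add_zero] at h3
  have h4 : |delta (R.m n) u - delta (R.m (n + 1)) u| ≤
      (psi (R.m (n + 1)) u - psi (R.m n) u) + (zeta (R.m (n + 1)) u - zeta (R.m n) u) := by
    have e1 : delta (R.m n) u = zeta (R.m n) u - psi (R.m n) u := rfl
    have e2 : delta (R.m (n + 1)) u = zeta (R.m (n + 1)) u - psi (R.m (n + 1)) u := rfl
    rw [e1, e2, abs_le]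
    constructor <;> linarith
  unfold Theta
  linarith

/-- (c) -/
theorem Theta_delete [NeZero k] (hκ : 8 ≤ κ) (R : Run M k κ ε P0) (n : ℕ) (u : M) :
    R.Theta (R.m (n + 1)) (insert n (R.P n)) u = R.Theta (R.m (n + 1)) (R.P (n + 1)) u := by
  unfold Theta
  congr 2
  symm
  refine Finset.sum_subset ?_ ?_
  · intro t ht
    rw [mem_P_succ] at ht
    rw [Finset.mem_insert]
    exact ht.1
  · intro t ht1 ht2
    rw [mem_P_succ] at ht2
    rw [Finset.mem_insert] at ht1
    have h1 : ¬ |delta (R.m (n + 1)) (R.σ t) - R.lam t| < R.lam t / 2 := fun h => ht2 ⟨ht1, h⟩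
    rw [not_lt] at h1
    have h2 := THE_delta_abs R (n + 1) (R.σ t) u
    have h3 := abs_sub_le (delta (R.m (n + 1)) (R.σ t)) (delta (R.m (n + 1)) u) (R.lam t)
    have hd := dist_nonneg (x := u) (y := R.σ t)
    rw [dist_comm (R.σ t) u] at h2
    have h4 : 8 * dist u (R.σ t) ≤ κ * dist u (R.σ t) := mul_le_mul_of_nonneg_right hκ hd
    unfold bump
    exact max_eq_left (by linarith)

end Run

end H63K
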